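import Pool.Agent.Helper78.W3.StC

/-!
# Project W3 (level `3^n`): lower bound, operator calculus on plane functions modulo 3

The plane is `ZMod q × ZMod q'`, `q = 3^r`, `q' = 3^s`. A matrix `m = (a 3b; 3c d)` with `a`, `d` prime to `3` (of any determinant) acts on
the right by `(x, y) m = ((b + d x)/(a + 9 c x), (c + a y)/(d + 9 b y))`; `tr a b c d F` is the function `p ↦ F (p m)`.
`A = (1 3; 0 1)`, `B = (1 0; 3 1)`, `C' = (-2 3; -3 4)` (fixes the cusp `1`, maps `2` to `1/2`).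
-/

set_option autoImplicit false

namespace Pool.Agent.Helper78.W3

open Pool.Agent.Helper14.CV (Homog EqC act Tl StFar StFex)
open Pool.Agent.Helper14.W3

/-- Right translation by `(a 3b; 3c d)`. -/
def tr {R : Type} (a b c d : ℤ) {q q' : ℕ} (F : ZMod q → ZMod q' → R) : ZMod q → ZMod q' → R :=
  fun x y => F (((b : ZMod q) + d * x) * ((a : ZMod q) + 9 * c * x)⁻¹)
    (((c : ZMod q') + a * y) * ((d : ZMod q') + 9 * b * y)⁻¹)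

/-- TRM. Composition law, identity, homogeneity. (`(p m) m' = p (m m')`, `m m' = (a a' + 9 b c', 3 (a b' + b d'); 3 (c a' + d c'), 9 c b' + d d')`;
denominators are units of `ZMod (3^r)`.) -/
def S3Trm : Prop := ∀ (R : Type) (r s : ℕ) (F : ZMod (3 ^ r) → ZMod (3 ^ s) → R),
  (∀ a b c d a' b' c' d' : ℤ, ¬ 3 ∣ a → ¬ 3 ∣ d → ¬ 3 ∣ a' → ¬ 3 ∣ d' →
    tr a b c d (tr a' b' c' d' F) =
      tr (a * a' + 9 * b * c') (a * b' + b * d') (c * a' + d * c') (9 * c * b' + d * d') F) ∧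
  tr 1 0 0 1 F = F ∧
  (∀ k a b c d : ℤ, ¬ 3 ∣ k → ¬ 3 ∣ a → ¬ 3 ∣ d → tr (k * a) (k * b) (k * c) (k * d) F = tr a b c d F)

/-- TRE (from EDG, PLA). Values on translated paths: for `γ = (a 3b; 3c d)` of determinant one the path from `γ v` to `γ u` at the point `p` is the
path from `v` to `u` at `p γ` (if `g` has coordinates `p` then `g γ` has coordinates `p γ`). -/
def S3Tre : Prop := ∀ (R : Type) (_ : AddCommGroup R) (r s : ℕ) (G : ℤ → ℤ → R), Sym3 (r + 1) (s + 1) G →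
  ∀ (a b c d u1 u2 v1 v2 : ℤ), a * d - 9 * b * c = 1 → (u1 ≠ 0 ∨ u2 ≠ 0) → (v1 ≠ 0 ∨ v2 ≠ 0) →
  ∀ (x : ZMod (3 ^ r)) (y : ZMod (3 ^ s)),
  edge3 1 (a * u1 + 3 * b * u2) (3 * c * u1 + d * u2) (a * v1 + 3 * b * v2) (3 * c * v1 + d * v2) G x y =
    tr a b c d (edge3 1 u1 u2 v1 v2 G) x y

/-- The cusps `0, 1, -1`. -/
def e3 : Fin 3 → ℤ := ![0, 1, -1]

/-- The three plane functions of a symbol: `F_i(g) = G(g∞) - G(g e_i)`, `e_i = 0, 1, -1`. -/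
noncomputable def pf {R : Type} [AddCommGroup R] {q q' : ℕ} (G : ℤ → ℤ → R) (i : Fin 3) :
    ZMod q → ZMod q' → R := fun x y => edge3 1 1 0 (e3 i) 1 G x y

/-- The relation between the three functions:
`F0(p) - F0(pB) - (F1(p) - F1(pC')) + (F2(pB) - F2(pC'A)) = 0`. -/
def Rel3 {R : Type} [AddCommGroup R] {q q' : ℕ} (F : Fin 3 → ZMod q → ZMod q' → R) : Prop :=
  ∀ x y, F 0 x y - tr 1 0 1 1 (F 0) x y - (F 1 x y - tr (-2) 1 (-1) 4 (F 1) x y) +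
    (tr 1 0 1 1 (F 2) x y - tr (-2) (-1) (-1) (-5) (F 2) x y) = 0

/-- REL (from TRE). The plane functions of a symbol satisfy the relation. With `g` of coordinates `p`: `F0(p) - F0(pB) = G(g∞) - G(g⅓)` (`B` fixes `0`, maps `∞` to `1/3`),
`F1(p) - F1(pC') = G(g∞) - G(g⅔)` (`C'` fixes `1`, maps `∞` to `2/3`), `F2(pB) = G(g⅓) - G(g½)` (`B(-1) = 1/2`), `F2(pC'A) = G(g⅔) - G(g½)` (`C'A(-1) = C' 2 = 1/2`). -/
def S3Rel : Prop := ∀ (R : Type) (_ : AddCommGroup R) (r s : ℕ) (G : ℤ → ℤ → R),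
  Sym3 (r + 1) (s + 1) G → Rel3 (fun i => (pf G i : ZMod (3 ^ r) → ZMod (3 ^ s) → R))

/-- EX (from TRM, PLA, EDG, FEX, FAR of CV). Every solution of the relation comes from a symbol. Proof. For `g = (a b; c d)` in `SL₂(ℤ)` define `E g` (the value on the path from `g0` to `g∞`) by the class of
`g` modulo `3` up to sign (12 classes): with `γ ≡ ±1` modulo `3`, `γ = (a 3b; 3c d)`, `p(γ) = (b/a, c/d)`:
`E γ = F0(p)`, `E (γ T) = F1(p)`, `E (γ T⁻¹) = F2(p)` (`T = (1 1; 0 1)`), `E (γ (1 0; 1 1)) = F0(p) - F1(p)`, `E (γ (1 0; -1 1)) = F0(p) - F2(p)`,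
`E (γ (2 1; 1 1)) = F1(p) - F2(pA)`, and `E (ρ S) = -E ρ` for these six, `S = (0 -1; 1 0)`, `ρ S = (b -a; d -c)` for `ρ = (a b; c d)`. Equivalently: `E g = H(g∞-class, ..)`; well defined since the
twelve residue matrices up to sign are different. Triangle relation of FEX (`E g = E (g (1 1; 0 1)) + E (g (1 0; 1 1))`, i.e. path `g0 → g1 → g∞`): it is equivalent to the relation for the rotated
triangles `g U`, `g U²`, `U = (1 -1; 1 0)` (orientation signs), so one of each three classes is enough, four cases: `γ{∞,0,1}`: `F0 = F1 + (F0 - F1)`;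
`γ{∞,-1,0}`: `F2 = F0 - (F0 - F2)`; `γ{∞,1,2}`: `F1(p) = F2(pA) + (F1(p) - F2(pA))`; `γ{0,½,1}`: `F0(p) - F1(p) = (F0 - F2)(pB) - (F1(pC') - F2(pC'A))`, which is `Rel3` (`{0,½} = B{0,-1}`, `{1,½} = C'{1,2}`). (Or check all
24 residue matrices by `decide`/`fin_cases` after expressing `E` through a table.) `E` is invariant under left multiplication by the group of the symbol (coordinates do not change, TRM/PLU), so `G∘γ ≈ G` by FAR. -/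
def S3Ex : Prop := ∀ (R : Type) (_ : AddCommGroup R) (r s : ℕ)
  (F : Fin 3 → ZMod (3 ^ r) → ZMod (3 ^ s) → R), Rel3 F →
  ∃ G : ℤ → ℤ → R, Sym3 (r + 1) (s + 1) G ∧ ∀ i, pf G i = F i

/-- UNI (from EDG/TRE, FAR). A symbol with `F0 = F1 = F2 = 0` is constant: `G` has the same value at `g∞, g0, g1, g(-1), g2` (`2 = A(-1)`, `g∞ = gA∞`) for every `g = (a 3b; 3c d)`, and every matrix of
`SL₂(ℤ)` is `g ρ` or `g ρ S` with `ρ` one of the six matrices of EX. -/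
def S3Uni : Prop := ∀ (R : Type) (_ : AddCommGroup R) (r s : ℕ) (G : ℤ → ℤ → R),
  Sym3 (r + 1) (s + 1) G → (∀ i, (pf G i : ZMod (3 ^ r) → ZMod (3 ^ s) → R) = 0) → EqC G 0

/-- HKB. Hecke sums for balanced levels `(r, s)` (from HK by `G0(p,q) = G(3^r p, q)`, which is a symbol
of level `(0, r+s)`, `G(p,q) = G0(p, 3^r q)`; `δ` becomes `(a, b/3^r; 3^r c, d)`), and `T_l` preserves
symbols (from HK in the same way). Hypothesis: `S3Hk` of `Helper14/W3/StB.lean`. -/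
def S3HkB : Prop := ∀ (R : Type) (_ : AddCommGroup R) (r s l : ℕ) (G : ℤ → ℤ → R), l.Prime →
  l ≠ 3 → Sym3 r s G → Sym3 r s (Tl l (3 ^ r) G) ∧
  ∀ δ : Fin (l + 1) → Matrix (Fin 2) (Fin 2) ℤ,
  (∀ P, (δ P).det = l) → (∀ P, (3 : ℤ) ^ r ∣ δ P 0 1) → (∀ P, (3 : ℤ) ^ s ∣ δ P 1 0) →
  (∀ P P', P ≠ P' → ¬ ∀ i j, (l : ℤ) ∣ (δ P * (δ P').adjugate) i j) →
  EqC (fun p q => ∑ P, G (δ P 0 0 * p + δ P 0 1 * q) (δ P 1 0 * p + δ P 1 1 * q))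
    (Tl l (3 ^ r) G)

/-- HKF (from HKB, EDG, PLA). Hecke formula on the plane for the path from `v = (v1, v2)` to `∞`. `J` is a complete system of residues modulo `l`. For `g` with
coordinates `(x,y)` use in HKB the family `δ = g_j (1 3j; 0 l) g⁻¹`, `j ∈ J`, and `g_∞ (l 0; 0 1) g⁻¹`, where `g_j` is the standard matrix with coordinates
`((x-j)/l, l y/(1-9jy))` (this is `(x,y) (l, -3j; 0, 1)`) and `g_∞` the one with coordinates `(l x, y/l)` (this is `(x,y)(1 0; 0 l)`): both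
`g_j (1 3j; 0 l)` and `g_∞ (l 0; 0 1)` have plane coordinates `(x, y)`, so `δ` satisfies the congruences. Then `G(δ g u) = G(g_j (1 3j; 0 l) u)`. -/
def S3HkF : Prop := ∀ (R : Type) (_ : AddCommGroup R) (r s l : ℕ) (G : ℤ → ℤ → R) (J : Finset ℤ),
  l.Prime → l ≠ 3 → Sym3 (r + 1) (s + 1) G → J.card = l →
  (∀ j ∈ J, ∀ j' ∈ J, (l : ℤ) ∣ j - j' → j = j') →
  ∀ (v1 v2 : ℤ), (v1 ≠ 0 ∨ v2 ≠ 0) → ∀ (x : ZMod (3 ^ r)) (y : ZMod (3 ^ s)),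
  edge3 1 1 0 v1 v2 (Tl l (3 ^ (r + 1)) G) x y =
    tr 1 0 0 l (edge3 1 1 0 (l * v1) v2 G) x y +
    ∑ j ∈ J, tr l (-j) 0 1 (edge3 1 1 0 (v1 + 3 * j * v2) (l * v2) G) x y

/-! ### Operators on functions with values in `ZMod 3` -/

/-- Plane functions modulo 3. -/
abbrev Fn3 (q q' : ℕ) : Type := ZMod q → ZMod q' → ZMod 3

/-- The operator of `(a 3b; 3c d)`. -/
def op3 (a b c d : ℤ) {q q' : ℕ} : Module.End (ZMod 3) (Fn3 q q') where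
  toFun F := tr a b c d F
  map_add' _ _ := rfl
  map_smul' _ _ := rfl

/-- A term `(k, a, b, c, d)` stands for `k` times the operator of `(a 3b; 3c d)`. -/
abbrev Tm : Type := ℤ × ℤ × ℤ × ℤ × ℤ

/-- The operator of a list of terms. -/
def opL (L : List Tm) {q q' : ℕ} : Module.End (ZMod 3) (Fn3 q q') :=
  (L.map fun t => ((t.1 : ℤ) : ZMod 3) • op3 t.2.1 t.2.2.1 t.2.2.2.1 t.2.2.2.2).sum

/-- Product of two terms. -/
def mulT (t t' : Tm) : Tm :=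
  (t.1 * t'.1, t.2.1 * t'.2.1 + 9 * t.2.2.1 * t'.2.2.2.1, t.2.1 * t'.2.2.1 + t.2.2.1 * t'.2.2.2.2,
    t.2.2.2.1 * t'.2.1 + t.2.2.2.2 * t'.2.2.2.1, 9 * t.2.2.2.1 * t'.2.2.1 + t.2.2.2.2 * t'.2.2.2.2)

/-- Product of two lists. -/
def mulL (L L' : List Tm) : List Tm := L.flatMap fun t => L'.map fun t' => mulT t t'

/-- The list with opposite signs. -/
def negL (L : List Tm) : List Tm := L.map fun t => (-t.1, t.2)

/-- The relation as a row of three lists. -/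
def relL : Fin 3 → List Tm
  | 0 => [(1, 1, 0, 0, 1), (-1, 1, 0, 1, 1)]
  | 1 => [(-1, 1, 0, 0, 1), (1, -2, 1, -1, 4)]
  | 2 => [(1, 1, 0, 1, 1), (-1, -2, -1, -1, -5)]

/-- The rows of `T_2`: `F_i(T_2 G) = ∑_f (T2L i f) F_f(G)`. -/
def T2L : Fin 3 → Fin 3 → List Tm
  | 0, 0 => [(1, 1, 0, 0, 2), (1, 2, 0, 0, 1), (1, -1, 0, 1, -2)]
  | 0, 1 => [(-1, -1, 0, 1, -2), (1, 2, -1, 0, 1)]
  | 0, 2 => []
  | 1, 0 => [(-1, 2, 0, 1, 1), (1, 2, 0, 0, 1)]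
  | 1, 1 => []
  | 1, 2 => [(1, 1, 1, 0, 2), (1, 2, 0, 1, 1), (1, 2, 1, 0, 1)]
  | 2, 0 => []
  | 2, 1 => [(1, 1, -1, 0, 2), (1, -4, 2, 1, -5), (1, 2, -1, 0, 1)]
  | 2, 2 => [(-1, -4, -2, 1, 4), (1, 2, 0, 0, 1)]

/-- The rows of `T_7`. -/
def T7L : Fin 3 → Fin 3 → List Tm
  | 0, 0 => [(1, 1, 0, 0, 7), (1, 1, 0, -1, 7), (1, 1, 0, 2, 7), (1, 1, 0, -3, 7), (1, 7, 0, 0, 1), (1, 1, 0, 3, 7), (-1, -2, -1, 1, 1), (1, 7, -1, 0, 1), (1, 1, 0, -2, 7), (1, 1, 0, 1, 7)]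
  | 0, 1 => [(-1, 1, 0, -3, 7), (1, -5, 2, 1, -5), (-1, 1, 0, -2, 7), (1, 7, -2, 0, 1), (-1, 1, -1, 1, -2), (1, 7, -3, 0, 1)]
  | 0, 2 => [(-1, 1, 1, -1, -2), (1, 7, 3, 0, 1), (-1, 1, 0, 2, 7), (1, 7, 2, 0, 1), (-1, -5, -3, 1, 4), (1, 7, 1, 0, 1), (-1, 1, 0, 3, 7), (1, -2, -1, 1, 1)]
  | 1, 0 => [(-1, -2, 1, -1, 1), (1, 7, 1, 0, 1), (-1, 7, 0, 2, 1), (1, 7, 0, 0, 1), (-1, -2, -1, 1, 1), (1, 7, -1, 0, 1), (-1, 10, -1, 3, -2), (1, 1, -1, 1, -2)]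
  | 1, 1 => [(1, 1, 2, 0, 7), (1, -5, 4, -2, 13), (1, 4, 1, 1, 4), (1, -2, 3, -1, 10), (1, 7, 0, 2, 1), (1, -8, 5, -3, 16), (1, 7, -2, 0, 1), (1, 10, -1, 3, -2), (-1, 1, -1, 1, -2), (1, 7, -3, 0, 1)]
  | 1, 2 => [(-1, -5, -1, -2, -5), (1, 7, 3, 0, 1), (-1, 4, 1, 1, 4), (1, 7, 2, 0, 1), (-1, -8, -3, -3, -11), (1, -2, -1, 1, 1)]
  | 2, 0 => [(-1, 10, 1, -3, -2), (1, -8, 1, 1, -2), (-1, 7, 0, -2, 1), (1, 7, 0, 0, 1), (-1, -2, -1, 1, 1), (1, 7, -1, 0, 1)]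
  | 2, 1 => [(-1, -8, 1, 1, -2), (1, 7, -4, 0, 1), (-1, -8, 3, 3, -11), (1, -5, 2, 1, -5), (-1, 4, -1, -1, 4), (1, 7, -2, 0, 1), (-1, -5, 1, 2, -5), (1, 7, -3, 0, 1)]
  | 2, 2 => [(1, 1, -2, 0, 7), (1, 10, 1, -3, -2), (1, 7, 2, 0, 1), (1, -8, -5, 3, 16), (-1, -5, -3, 1, 4), (1, 7, 1, 0, 1), (1, 7, 0, -2, 1), (1, -2, -3, 1, 10), (1, 4, -1, -1, 4), (1, -5, -4, 2, 13)]

/-- The rows of `T_2²`. -/
def T22L (i f : Fin 3) : List Tm :=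
  mulL (T2L i 0) (T2L 0 f) ++ mulL (T2L i 1) (T2L 1 f) ++ mulL (T2L i 2) (T2L 2 f)

/-- HK2 (from HKF, TRE, TRM). The rows of `T_2`: HKF with `l = 2`, `J = {0, 1}`, `v = e_i`. `i = 0`: `(l 0; 0 1)`: `{0,∞}`; `j = 0`: `{0,∞}`; `j = 1`: `{3/2,∞}`, path `3/2 → 1 → ∞`, with
`{3/2, 1} = (4 -3; 3 -2){0,1}`, value `F0 - F1` at `p (4 -3; 3 -2)`. `i = 1`: `{2,∞} = A{-1,∞}`; `{1/2,∞}`, path `1/2 → 0 → ∞`, `{1/2,0} = B{-1,0}`, value `F2 - F0` at `pB`; `{2,∞}`.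
`i = 2`: `{-2,∞} = A⁻¹{1,∞}`; `{-1/2,∞}`: `-1/2 → -1 → ∞`, `{-1/2,-1} = (-2 3; 3 -5){1,2}`, value `F1(m) - F2(mA)`; `{1,∞}`. Multiply with the matrices `(1 0; 0 2)`, `(2, -3j; 0, 1)` of HKF by TRM (some terms were
multiplied by `-1`, see TRM). -/
def S3Hk2 : Prop := ∀ (r s : ℕ) (G : ℤ → ℤ → ZMod 3), Sym3 (r + 1) (s + 1) G → ∀ i : Fin 3,
  (pf (Tl 2 (3 ^ (r + 1)) G) i : Fn3 (3 ^ r) (3 ^ s)) = ∑ f : Fin 3, opL (T2L i f) (pf G f)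

/-- HK7 (from HKF, TRE, TRM), the row `i` of `T_7`: HKF with `l = 7`, `J = {-3, ..., 3}`, `v = e_i`, and the decomposition of the paths into Farey edges. Farey edges: `γ{0,∞}`: `F0(γ)`, `γ{1,∞}`: `F1(γ)`,
`γ{-1,∞}`: `F2(γ)`, `γ{0,1}`: `F0(γ) - F1(γ)`, `γ{0,-1}`: `F0(γ) - F2(γ)`, `γ{1,2}`: `F1(γ) - F2(γA)` (here `{v, w}` is the path from `v` to `w`, value `G(w) - G(v)`; reversed paths with the opposite sign).
Row 0: `(l 0; 0 1)`: `0 → ∞`; `j = 0`: `0 → ∞`; `j = ±1`: `±3/7 → ±1/2 → (0 or ±1) → ∞` (`j = 1`: via `0`; `j = -1`: via `-1`); `j = ±2`: `±6/7 → ±1 → ∞`; `j = ±3`: `±9/7 → ±4/3 → ±1 → ∞`.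
Row 1 (`v = 1`): `7 → ∞`; `j = -3`: `-8/7 → -1 → ∞`; `-2`: `-5/7 → -2/3 → -1 → ∞`; `-1`: `-2/7 → -1/3 → 0 → ∞`; `0`: `1/7 → 0 → ∞`; `1`: `4/7 → 1/2 → 0 → ∞`; `2`: `1 → ∞`; `3`: `10/7 → 3/2 → 1 → ∞`.
Row 2 (`v = -1`): `-7 → ∞`; `j = -3`: `-10/7 → -3/2 → -2 → ∞`; `-2`: `-1 → ∞`; `-1`: `-4/7 → -1/2 → -1 → ∞`; `0`: `-1/7 → 0 → ∞`; `1`: `2/7 → 1/3 → 0 → ∞`; `2`: `5/7 → 2/3 → 1 → ∞`; `3`: `8/7 → 1 → ∞`.
The lists were computed and tested by machine (the operators preserve the relation and commute); equal terms are collected (terms which cancel are omitted), and some matrices are multiplied by `-1`. -/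
def S3Hk7 (i : Fin 3) : Prop := ∀ (r s : ℕ) (G : ℤ → ℤ → ZMod 3), Sym3 (r + 1) (s + 1) G →
  (pf (Tl 7 (3 ^ (r + 1)) G) i : Fn3 (3 ^ r) (3 ^ s)) = ∑ f : Fin 3, opL (T7L i f) (pf G f)

/-- Difference in `x`. -/
def dX {q q' : ℕ} : Module.End (ZMod 3) (Fn3 q q') where
  toFun F x y := F (x + 1) y - F x y
  map_add' F G := by funext x y; simp only [Pi.add_apply]; ring
  map_smul' c F := by funext x y; simp only [Pi.smul_apply, smul_eq_mul, RingHom.id_apply]; ring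

/-- Difference in `y`. -/
def dY {q q' : ℕ} : Module.End (ZMod 3) (Fn3 q q') where
  toFun F x y := F x (y + 1) - F x y
  map_add' F G := by funext x y; simp only [Pi.add_apply]; ring
  map_smul' c F := by funext x y; simp only [Pi.smul_apply, smul_eq_mul, RingHom.id_apply]; ring

/-- `F ↦ F(x/4, 4y)`. -/
def oD {q q' : ℕ} : Module.End (ZMod 3) (Fn3 q q') := op3 4 0 0 1

/-- `F ↦ F(-x, -y)`. -/
def oN {q q' : ℕ} : Module.End (ZMod 3) (Fn3 q q') := op3 (-1) 0 0 1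

/-- Functions of degree at most `d` (`0` for `d < 0`). -/
def Wd3 {q q' : ℕ} (d : ℤ) : Submodule (ZMod 3) (Fn3 q q') where
  carrier := {F | ∀ i j : ℕ, d < (i : ℤ) + j →
    ((dX ^ i * dY ^ j : Module.End (ZMod 3) (Fn3 q q')) F) = 0}
  add_mem' h h' := by intro i j hij; rw [map_add, h i j hij, h' i j hij, add_zero]
  zero_mem' := by intro i j _; exact map_zero _
  smul_mem' c F h := by intro i j hij; rw [map_smul, h i j hij, smul_zero]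

/-- The operator lowers degrees by at least `k`. -/
def Lw {q q' : ℕ} (O : Module.End (ZMod 3) (Fn3 q q')) (k : ℤ) : Prop :=
  ∀ (d : ℤ) (F : Fn3 q q'), F ∈ Wd3 d → O F ∈ Wd3 (d - k)

/-- The leading operator of `T_2²`. -/
def Qo {q q' : ℕ} : Module.End (ZMod 3) (Fn3 q q') := dX * dY

/-- The leading operator of `T_7 + 1 - T_2²`. -/
def Lo {q q' : ℕ} : Module.End (ZMod 3) (Fn3 q q') := -(dX ^ 3 * dY + dX ^ 2 * dY ^ 2 + dX * dY ^ 3)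

/-- LOW0. `Lw` is compatible with sums, products, smaller lowering; `Wd3` is increasing; `dX`, `dY`
commute and lower by `1`; every function has finite degree; the identity is `Lw 0`. Model: `StLow0` of CV. -/
def S3Low0 : Prop := ∀ (r s : ℕ),
  (∀ (O O' : Module.End (ZMod 3) (Fn3 (3 ^ r) (3 ^ s))) (k k' : ℤ), Lw O k → Lw O' k' →
    Lw (O * O') (k + k')) ∧
  (∀ (O O' : Module.End (ZMod 3) (Fn3 (3 ^ r) (3 ^ s))) (k : ℤ), Lw O k → Lw O' k →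
    Lw (O + O') k) ∧
  (∀ (O : Module.End (ZMod 3) (Fn3 (3 ^ r) (3 ^ s))) (c : ZMod 3) (k : ℤ), Lw O k → Lw (c • O) k) ∧
  (∀ (O : Module.End (ZMod 3) (Fn3 (3 ^ r) (3 ^ s))) (k k' : ℤ), k' ≤ k → Lw O k → Lw O k') ∧
  (∀ d d' : ℤ, d ≤ d' → (Wd3 d : Submodule (ZMod 3) (Fn3 (3 ^ r) (3 ^ s))) ≤ Wd3 d') ∧
  Lw (1 : Module.End (ZMod 3) (Fn3 (3 ^ r) (3 ^ s))) 0 ∧
  Lw (dX : Module.End (ZMod 3) (Fn3 (3 ^ r) (3 ^ s))) 1 ∧
  Lw (dY : Module.End (ZMod 3) (Fn3 (3 ^ r) (3 ^ s))) 1 ∧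
  (dX * dY : Module.End (ZMod 3) (Fn3 (3 ^ r) (3 ^ s))) = dY * dX ∧
  (dX ^ (3 ^ r) : Module.End (ZMod 3) (Fn3 (3 ^ r) (3 ^ s))) = 0 ∧
  (dY ^ (3 ^ s) : Module.End (ZMod 3) (Fn3 (3 ^ r) (3 ^ s))) = 0 ∧
  (∀ F : Fn3 (3 ^ r) (3 ^ s), F ∈ Wd3 ((3 : ℤ) ^ r + 3 ^ s - 2)) ∧
  (∀ F : Fn3 (3 ^ r) (3 ^ s), F ∈ Wd3 0 → ∀ x y, F x y = F 0 0) ∧
  (∀ F : Fn3 (3 ^ r) (3 ^ s), F ∈ Wd3 (-1) → F = 0)

/-- PRD. Product rule: degrees add. `dX (F G) = dX F * (G shifted) + F * dX G`, induction. Model: `StPrd` of CV. -/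
def S3Prd : Prop := ∀ (r s : ℕ) (d e : ℤ) (F G : Fn3 (3 ^ r) (3 ^ s)), F ∈ Wd3 d → G ∈ Wd3 e →
  (fun x y => F x y * G x y) ∈ (Wd3 (d + e) : Submodule (ZMod 3) (Fn3 (3 ^ r) (3 ^ s)))

/-- SUBA (from LOW0, PRD). Substitutions. Let `t : ZMod (3^s) → ZMod (3^s)` respect all congruences modulo `3^i`. Then
`F(x, y + 9 t(y)) - F(x, y)` has degree at most `d - 7` if `F` has degree at most `d`. Proof. With `Δ = dY` and `u = (t y).val`,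
`F(x, y + 9 t) = (1 + Δ)^(9u) F = (1 + Δ^9)^u F = ∑_m (u choose m) (Δ^(9m) F)(x, y)` (characteristic 3), `m < 3^s`. For `m ≥ 1` let `3^i` be the smallest power of three bigger than `m`, so
`3^i ≤ 3m`; the function `y ↦ (u(y) choose m)` modulo 3 only depends on `u(y)` modulo `3^i` (Lucas / Vandermonde), so it has period `3^i` in `y`, so `Δ^(3^i)` kills it and its degree is at most
`3^i - 1 ≤ 3m - 1`. By PRD the `m`-th term has degree at most `d - 9m + 3m - 1 ≤ d - 7`. The same in the variable `x`. Model: `StSub` of CV (module by helper10). -/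
def S3SubA : Prop := ∀ (r s : ℕ),
  (∀ (t : ZMod (3 ^ s) → ZMod (3 ^ s)),
    (∀ (i : ℕ) (y y' : ZMod (3 ^ s)), (3 : ZMod (3 ^ s)) ^ i ∣ y - y' → (3 : ZMod (3 ^ s)) ^ i ∣ t y - t y') →
    ∀ (d : ℤ) (F : Fn3 (3 ^ r) (3 ^ s)), F ∈ Wd3 d →
      (fun x y => F x (y + 9 * t y) - F x y) ∈ (Wd3 (d - 7) : Submodule (ZMod 3) (Fn3 (3 ^ r) (3 ^ s)))) ∧
  (∀ (t : ZMod (3 ^ r) → ZMod (3 ^ r)),
    (∀ (i : ℕ) (x x' : ZMod (3 ^ r)), (3 : ZMod (3 ^ r)) ^ i ∣ x - x' → (3 : ZMod (3 ^ r)) ^ i ∣ t x - t x') →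
    ∀ (d : ℤ) (F : Fn3 (3 ^ r) (3 ^ s)), F ∈ Wd3 d →
      (fun x y => F (x + 9 * t x) y - F x y) ∈ (Wd3 (d - 7) : Submodule (ZMod 3) (Fn3 (3 ^ r) (3 ^ s))))

/-- SUBB (from LOW0, PRD). Linear substitutions: `F(x, y + 3 u y) - F(x,y)` has degree at most `d - 2`. Proof: as in SUBA, `F(x, y + 3 u y) = ∑_m (ũ ỹ choose m) (Δ^(3m) F)(x,y)`, `ũ`, `ỹ` representatives in `ℕ`
(`(1+Δ)^(3 ũ ỹ) = (1 + Δ³)^(ũ ỹ)`); the function `y ↦ (ũ y choose m)` modulo 3, `m < 3^s`, is well defined on `ZMod (3^s)` (Lucas) and has degree at most `m`, because `n ↦ (ũ n choose m)` on `ℕ` is a polynomial of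
degree at most `m`, so its differences of order `m + 1` vanish. So the `m`-th term, `m ≥ 1`, has degree at most `d - 3m + m ≤ d - 2`. The same in `x`. -/
def S3SubB : Prop := ∀ (r s : ℕ),
  (∀ (u : ZMod (3 ^ s)) (d : ℤ) (F : Fn3 (3 ^ r) (3 ^ s)), F ∈ Wd3 d →
      (fun x y => F x (y + 3 * u * y) - F x y) ∈ (Wd3 (d - 2) : Submodule (ZMod 3) (Fn3 (3 ^ r) (3 ^ s)))) ∧
  (∀ (u : ZMod (3 ^ r)) (d : ℤ) (F : Fn3 (3 ^ r) (3 ^ s)), F ∈ Wd3 d →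
      (fun x y => F (x + 3 * u * x) y - F x y) ∈ (Wd3 (d - 2) : Submodule (ZMod 3) (Fn3 (3 ^ r) (3 ^ s))))

/-- NF (from LOW0, SUBA, SUBB). Normal form. (a) `oD - 1` lowers by `2` (`F(x/4, 4y)`, `x/4 = x + 3 (-1/4) x`, `4y = y + 3y`: SUBB twice). (b) If `9 ∣ d 4^m - a`, `9 ∣ b - β a`, `9 ∣ c - γ d` then
`op3 a b c d - oD^m (1 + dX)^β (1 + dY)^γ` lowers by `7`. Proof: `(oD^m (1+dX)^β (1+dY)^γ F)(x,y) = H(x,y) = F(x/4^m + β, 4^m y + γ)`, of the same degree as `F`. In `ZMod (3^r)`: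
`(b + d x)/(a + 9cx) - x/4^m - β = 9 (b₁ + d₁ x/4^m - c x (x/4^m + β))/(a + 9cx)`, `b - β a = 9 b₁`, `d 4^m - a = 9 d₁`, so
`(b + dx)/(a + 9cx) = (x + 9 t(x))/4^m + β` where `t(x) = 4^m (..)/(a + 9cx)` respects congruences; similarly for `y`. So `op3 a b c d F (x, y) = H(x + 9 t(x), y + 9 t'(y))`: SUBA in `x` and in `y`. -/
def S3Nf : Prop := ∀ (r s : ℕ),
  Lw (oD - 1 : Module.End (ZMod 3) (Fn3 (3 ^ r) (3 ^ s))) 2 ∧
  ∀ (a b c d : ℤ) (m β γ : ℕ), ¬ 3 ∣ a → ¬ 3 ∣ d → 9 ∣ d * 4 ^ m - a → 9 ∣ b - β * a → 9 ∣ c - γ * d →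
    Lw (op3 a b c d - oD ^ m * (1 + dX) ^ β * (1 + dY) ^ γ :
      Module.End (ZMod 3) (Fn3 (3 ^ r) (3 ^ s))) 7

/-- The exponent of `oD`: `4^(-m) = d/a` modulo `9`. -/
def mE (t : Tm) : ℕ :=
  if (t.2.2.2.2 * t.2.1 ^ 5) % 9 = 1 then 0 else if (t.2.2.2.2 * t.2.1 ^ 5) % 9 = 7 then 1 else 2

/-- The exponent of `1 + dX`: `b/a` modulo `9`. -/
def bE (t : Tm) : ℕ := ((t.2.2.1 * t.2.1 ^ 5) % 9).toNat

/-- The exponent of `1 + dY`: `c/d` modulo `9`. -/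
def gE (t : Tm) : ℕ := ((t.2.2.2.1 * t.2.2.2.2 ^ 5) % 9).toNat

/-- The coefficient of `(oD - 1)^i dX^j dY^k` in the expansion of a list. -/
def sS (L : List Tm) (i j k : ℕ) : ℤ :=
  (L.map fun t => t.1 * ((mE t).choose i * (bE t).choose j * (gE t).choose k : ℕ)).sum

/-- The monomials of weight at most `4`, the weight of `(i, j, k)` being `2i + j + k`. -/
def M5 : Finset (ℕ × ℕ × ℕ) :=
  (Finset.range 3 ×ˢ Finset.range 5 ×ˢ Finset.range 5).filter fun t => 2 * t.1 + t.2.1 + t.2.2 ≤ 4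

/-- EXP (from LOW0, NF). Expansion of a list of operators modulo operators which lower by `5`. Proof: every term by NF (with `m = mE t`, `β = bE t`, `γ = gE t`: if `a d ≡ 1` modulo `3` then `a⁶ ≡ d⁶ ≡ 1` modulo `9`, `d a⁵` is
`1`, `7` or `4`), `oD^m = (1 + (oD - 1))^m`, binomial theorem; the products `(oD - 1)^i dX^j dY^k` with `2i + j + k ≥ 5` lower by `5` (for `m ≤ 2`, `β, γ ≤ 8`), and `M5` contains all `(i,j,k)` of weight `≤ 4`. -/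
def S3Exp : Prop := ∀ (r s : ℕ) (L : List Tm), (∀ t ∈ L, (t.2.1 * t.2.2.2.2) % 3 = 1) →
  Lw ((opL L : Module.End (ZMod 3) (Fn3 (3 ^ r) (3 ^ s))) - ∑ t ∈ M5, ((sS L t.1 t.2.1 t.2.2 : ℤ) : ZMod 3) •
    ((oD - 1) ^ t.1 * dX ^ t.2.1 * dY ^ t.2.2 : Module.End (ZMod 3) (Fn3 (3 ^ r) (3 ^ s)))) 5

/-- Multipliers of the relation for `T_7 + 1 - T_2²`. -/
def U7 : Fin 3 → List Tm
  | 0 => [(1, 1, 0, 0, 1), (-1, 1, 0, 1, 1), (1, 1, 0, 2, 1), (1, 1, 0, 3, 1), (1, 1, 1, 0, 1), (1, 10, 1, 1, 1), (-1, 19, 1, 2, 1), (1, 1, 2, 0, 1), (-1, 19, 2, 1, 1), (-1, 4, 0, 0, 1), (-1, 4, 4, 0, 1)]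
  | 1 => [(-1, 1, 0, 0, 1), (-1, 1, 0, 1, 1), (-1, 1, 0, 3, 1), (-1, 19, 1, 2, 1), (1, 1, 3, 0, 1), (1, 4, 0, 0, 1)]
  | 2 => [(1, 1, 0, 1, 1), (-1, 10, 1, 1, 1), (-1, 19, 1, 2, 1), (1, 1, 2, 0, 1), (1, 19, 2, 1, 1), (1, 4, 0, 0, 1), (-1, 4, 0, 1, 1)]

/-- Multipliers of the relation for `T_2²`. -/
def U22 : Fin 3 → List Tm
  | 0 => [(1, 1, 0, 0, 1), (-1, 1, 0, 1, 1)]
  | 1 => [(1, 1, 0, 0, 1), (-1, 1, 0, 1, 1)]
  | 2 => [(-1, 1, 0, 0, 1), (-1, 1, 0, 1, 1), (-1, 1, 1, 0, 1)]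

/-- `T_7 + 1 - T_2²` minus a multiple of the relation. -/
def B7 (i f : Fin 3) : List Tm :=
  T7L i f ++ negL (T22L i f) ++ (if f = i then [(1, 1, 0, 0, 1)] else []) ++ negL (mulL (U7 i) (relL f))

/-- `T_2²` minus a multiple of the relation. -/
def B22 (i f : Fin 3) : List Tm := T22L i f ++ negL (mulL (U22 i) (relL f))

/-- The row `i` of `T_2` with `oN` taken out on the left. -/
def N2 (i f : Fin 3) : List Tm := (T2L i f).map fun t => (t.1, -t.2.1, -t.2.2.1, t.2.2.2.1, t.2.2.2.2)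

/-- CERT. Finite computations (`decide`). -/
def S3Cert : Prop :=
  (∀ i f : Fin 3, (∀ t ∈ B7 i f, (t.2.1 * t.2.2.2.2) % 3 = 1) ∧ (∀ t ∈ B22 i f, (t.2.1 * t.2.2.2.2) % 3 = 1) ∧
    (∀ t ∈ N2 i f, (t.2.1 * t.2.2.2.2) % 3 = 1) ∧ (∀ t ∈ relL f, (t.2.1 * t.2.2.2.2) % 3 = 1)) ∧
  (∀ i f : Fin 3, ∀ t ∈ M5, (3 : ℤ) ∣ sS (B7 i f) t.1 t.2.1 t.2.2 -
    (if f = i ∧ t ∈ ({(0, 3, 1), (0, 2, 2), (0, 1, 3)} : Finset (ℕ × ℕ × ℕ)) then 2 else 0)) ∧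
  (∀ i f : Fin 3, ∀ t ∈ M5, 2 * t.1 + t.2.1 + t.2.2 ≤ 2 → (3 : ℤ) ∣ sS (B22 i f) t.1 t.2.1 t.2.2 -
    (if f = i ∧ t = (0, 1, 1) then 1 else 0)) ∧
  (∀ i f : Fin 3, (3 : ℤ) ∣ sS (N2 i f) 0 0 0) ∧
  (∀ f : Fin 3, ∀ t ∈ M5, 2 * t.1 + t.2.1 + t.2.2 ≤ 1 → (3 : ℤ) ∣ sS (N2 0 f ++ relL f) t.1 t.2.1 t.2.2 -
    (match f with
      | 0 => 0
      | 1 => if t = (0, 1, 0) then 2 else if t = (0, 0, 1) then 1 else 0
      | 2 => if t = (0, 1, 0) then 1 else if t = (0, 0, 1) then 2 else 0))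

/-- LW1 (from LOW0, NF, EXP). Elementary lowering facts. `op3 a b c d` with `a d ≡ 1` modulo `3` preserves degrees (NF); `B - 1 - dY`, `C' - 1 - dX + dY`, `C'A - 1 + dX + dY` lower by `2` (EXP or NF: the normal forms are
`(m, β, γ) = (0, 0, 1)`, `(1, 4, 2)`, `(1, 5, 2)`); `oN` preserves degrees, `oN dX + dX oN` lowers by `2` (`(oN dX F + dX oN F)(x,y) = F(-x+1,-y) - 2F(-x,-y) + F(-x-1,-y)`), the same for `dY`, so `Lo oN - oN Lo` lowers by `5`; at the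
origin `oN` does nothing. -/
def S3Lw1 : Prop := ∀ (r s : ℕ),
  (∀ a b c d : ℤ, (a * d) % 3 = 1 → Lw (op3 a b c d : Module.End (ZMod 3) (Fn3 (3 ^ r) (3 ^ s))) 0) ∧
  Lw (op3 1 0 1 1 - 1 - dY : Module.End (ZMod 3) (Fn3 (3 ^ r) (3 ^ s))) 2 ∧
  Lw (op3 (-2) 1 (-1) 4 - 1 - dX + dY : Module.End (ZMod 3) (Fn3 (3 ^ r) (3 ^ s))) 2 ∧
  Lw (op3 (-2) (-1) (-1) (-5) - 1 + dX + dY : Module.End (ZMod 3) (Fn3 (3 ^ r) (3 ^ s))) 2 ∧
  Lw (oN : Module.End (ZMod 3) (Fn3 (3 ^ r) (3 ^ s))) 0 ∧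
  Lw (Lo * oN - oN * Lo : Module.End (ZMod 3) (Fn3 (3 ^ r) (3 ^ s))) 5 ∧
  (∀ F : Fn3 (3 ^ r) (3 ^ s), oN F 0 0 = F 0 0)

/-- LD (from TRM, LOW0, EXP, LW1, CERT). Leading forms, for three functions of degree at most `d` satisfying the relation. `Rel3 F` says `∑_f opL (relL f) (F f) = 0`; `opL (mulL L L') = opL L * opL L'` (TRM; all matrices have entries `a`, `d` prime
to `3`), `opL (negL L) = -opL L`. So modulo the relation the rows are the lists `B7`, `B22` (`+ F_i` for the term `(1,1,0,0,1)`), `N2 0 f ++ relL f` (with `oN` on the left: `op3 a b c d = oN * op3 (-a) (-b) c d`), and EXP with CERT gives the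
leading forms; terms of weight `≥ 3`, `≥ 2`, `≥ 1` in EXP are lowered by that much (`(oD - 1)^i dX^j dY^k` lowers by `2i + j + k`). -/
def S3Ld : Prop := ∀ (r s : ℕ) (d : ℤ) (F : Fin 3 → Fn3 (3 ^ r) (3 ^ s)), Rel3 F → (∀ f, F f ∈ Wd3 d) →
  (∀ i, (∑ f : Fin 3, opL (T22L i f) (F f)) - Qo (F i) ∈ Wd3 (d - 3)) ∧
  (∀ i, (∑ f : Fin 3, opL (T7L i f) (F f)) + F i - (∑ f : Fin 3, opL (T22L i f) (F f)) - Lo (F i) ∈ Wd3 (d - 5)) ∧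
  (∀ i, (∑ f : Fin 3, opL (T2L i f) (F f)) ∈ Wd3 (d - 1)) ∧
  (∑ f : Fin 3, opL (T2L 0 f) (F f)) +
    oN ((dX - dY : Module.End (ZMod 3) (Fn3 (3 ^ r) (3 ^ s))) (F 1 - F 2)) ∈ Wd3 (d - 2)

/-- The product of binomial coefficients `(x choose i)(y choose j)` modulo 3. -/
def bb3 (i j : ℕ) {q q' : ℕ} : Fn3 q q' := fun x y => ((x.val.choose i * y.val.choose j : ℕ) : ZMod 3)

/-- BB. Binomial basis: for `i < 3^r`, `j < 3^s`: `bb3 i j ∈ Wd3 (i+j)`, `dX (bb3 (i+1) j) = bb3 i j` (`i + 1 < 3^r`),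
`dX (bb3 0 j) = 0`, the same for `dY`; and the Newton expansion
`F = ∑_{i<3^r, j<3^s} ((dX^i dY^j F) 0 0) bb3 i j`. (Pascal; wrap around `x = 3^r - 1`:
`(3^r choose i) = 0` modulo 3 for `0 < i < 3^r`.) Model: the module of CV (`StBb`). -/
def S3Bb : Prop := ∀ (r s : ℕ),
  (∀ i j : ℕ, i < 3 ^ r → j < 3 ^ s →
    (bb3 i j : Fn3 (3 ^ r) (3 ^ s)) ∈ Wd3 ((i : ℤ) + j)) ∧
  (∀ i j : ℕ, i + 1 < 3 ^ r → j < 3 ^ s → dX (bb3 (i + 1) j : Fn3 (3 ^ r) (3 ^ s)) = bb3 i j) ∧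
  (∀ i j : ℕ, i < 3 ^ r → j + 1 < 3 ^ s → dY (bb3 i (j + 1) : Fn3 (3 ^ r) (3 ^ s)) = bb3 i j) ∧
  (∀ j : ℕ, j < 3 ^ s → dX (bb3 0 j : Fn3 (3 ^ r) (3 ^ s)) = 0) ∧
  (∀ i : ℕ, i < 3 ^ r → dY (bb3 i 0 : Fn3 (3 ^ r) (3 ^ s)) = 0) ∧
  (∀ F : Fn3 (3 ^ r) (3 ^ s), F = ∑ i ∈ Finset.range (3 ^ r), ∑ j ∈ Finset.range (3 ^ s),
    (((dX ^ i * dY ^ j : Module.End (ZMod 3) (Fn3 (3 ^ r) (3 ^ s))) F) 0 0) • bb3 i j)

/-- SUR (from LOW0, LW1, BB). Solving the inhomogeneous relation below the top degree. Proof: (a) every `E ∈ Wd3 e` with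
`e < 3^r + 3^s - 2` is `dX U + dY V` with `U, V ∈ Wd3 (e+1)`: by BB `E` is a combination of `bb3 i j`,
`i + j ≤ e`, and `bb3 i j = dX (bb3 (i+1) j)` or `dY (bb3 i (j+1))`. (b) `H1 = U`, `H0 = -(U + V)`: the operator
`(1 - B) H0 - (1 - C') H1` equals `-dY H0 + (dX - dY) H1 = dX U + dY V` up to lowering 2 (LW1), so the error is in `Wd3 (e-1)`; induction on `e`
(downwards until `Wd3 (-1) = 0`). -/
def S3Sur : Prop := ∀ (r s : ℕ) (e : ℤ) (E : Fn3 (3 ^ r) (3 ^ s)), e < 3 ^ r + 3 ^ s - 2 → E ∈ Wd3 e →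
  ∃ H0 H1 : Fn3 (3 ^ r) (3 ^ s), H0 ∈ Wd3 (e + 1) ∧ H1 ∈ Wd3 (e + 1) ∧
    H0 - op3 1 0 1 1 H0 - (H1 - op3 (-2) 1 (-1) 4 H1) = E

/-- LED (from LOW0, LW1, BB, SUR). Solutions of the relation with given leading form. (P) Start with `Ψ = bb3 al be`, `F0⁰ = dX Ψ - dY Ψ`, `F1⁰ = F2⁰ = -dY Ψ`; the leading part of the relation is
`-dY F0 + (dX - dY)(F1 + F2) = -dY (dX - dY) Ψ + (dX - dY) (-2 dY Ψ) = 0`, so the error has degree at most `al + be - 3 < 3^r + 3^s - 2` and is corrected by SUR with functions `H0, H1` of degree at most `al + be - 2`.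
(H) Start with `F0⁰ = 0`, `F1⁰ = -bb3 al be`, `F2⁰ = bb3 al be` (`F1⁰ - F2⁰ = -2 bb3 al be = bb3 al be`, `F1⁰ + F2⁰ = 0`); the error has degree at most `al + be - 2`, corrected with functions of degree at most
`al + be - 1`. -/
def S3Led : Prop := ∀ (r s al be : ℕ), al < 3 ^ r → be < 3 ^ s →
  (1 ≤ al → ∃ F : Fin 3 → Fn3 (3 ^ r) (3 ^ s), Rel3 F ∧ (∀ f, F f ∈ Wd3 ((al : ℤ) + be - 1)) ∧
    F 0 - (dX (bb3 al be) - dY (bb3 al be)) ∈ Wd3 ((al : ℤ) + be - 2)) ∧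
  (∃ F : Fin 3 → Fn3 (3 ^ r) (3 ^ s), Rel3 F ∧ (∀ f, F f ∈ Wd3 ((al : ℤ) + be)) ∧
    F 0 ∈ Wd3 ((al : ℤ) + be - 1) ∧ F 1 - F 2 - bb3 al be ∈ Wd3 ((al : ℤ) + be - 1))

/-- ITR (from REL, HKB, HK2, HK7, LOW0, LW1, LD). Iteration. For a symbol `G` modulo 3 of level `(r+1, s+1)` with `F_f(G) ∈ Wd3 d` (`f = 0, 1, 2`) and `m = 3^(r+1)`: `ev3 m G i j = 0` if `i + 4j > d`; if `i + 4j = d` and `i` is even it is
`(Qo^(i/2) Lo^j F0) 0 0`, if `i` is odd it is `-((dX - dY) Qo^(i/2) Lo^j (F1 - F2)) 0 0`. Proof: `T_l` preserves symbols (HKB). By HK2 twice (`F_i(T_2 T_2 G) = ∑ opL (T22L i f) F_f(G)`, with `mulL`), HK7 and LD: `F_i(T_2² G) ≡ Qo F_i(G)` modulo `Wd3 (d-3)`,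
`F_i(Bo G) ≡ Lo F_i(G)` modulo `Wd3 (d-5)`, `F_i(T_2 G) ∈ Wd3 (d-1)`, `F_0(T_2 G) ≡ -oN (dX - dY)(F_1 - F_2)(G)` modulo `Wd3 (d-2)`. `ev3 m G i j` is the value at `(0,0)` of `F_0` of `(Bo m)^j (Tl 2 m)^i G` (the standard matrix of `(0,0)` is `1`);
`T_2^(2e+1) G = T_2 (T_2^(2e) G)`; `Lo oN ≡ oN Lo` (LW1). -/
def S3Itr : Prop := ∀ (r s : ℕ) (G : ℤ → ℤ → ZMod 3) (d : ℕ), Sym3 (r + 1) (s + 1) G →
  (∀ f, (pf G f : Fn3 (3 ^ r) (3 ^ s)) ∈ Wd3 (d : ℤ)) → ∀ i j : ℕ,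
  (d < i + 4 * j → ev3 (3 ^ (r + 1)) G i j = 0) ∧
  (i + 4 * j = d → i % 2 = 0 → ev3 (3 ^ (r + 1)) G i j =
    ((Qo ^ (i / 2) * Lo ^ j : Module.End (ZMod 3) (Fn3 (3 ^ r) (3 ^ s))) (pf G 0)) 0 0) ∧
  (i + 4 * j = d → i % 2 = 1 → ev3 (3 ^ (r + 1)) G i j =
    -(((dX - dY) * Qo ^ (i / 2) * Lo ^ j : Module.End (ZMod 3) (Fn3 (3 ^ r) (3 ^ s)))
      (pf G 1 - pf G 2)) 0 0)

/-- TRI (from LOW0, BB, LED, EX, ITR). Triangular system of symbols modulo 3. For `(i, j)` put `e = i/2`, `al = e + 3j + 1 < 3^r`, `be = e + j < 3^s`, and take LED (P) if `i` is even, LED (H) if `i` is odd, and the symbol `G` of EX; its functions have degree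
at most `i + 4j`. ITR with `d = i + 4j`: `ev3 G i' j' = 0` if `i' + 4j' > d`. If `i' + 4j' = d` then `i'` has the same parity as `i` and, with `e' = i'/2`, `ev3 G i' j' = ± (Qo^e' Lo^j' (dX - dY) bb3 al be)(0,0)` (terms of lower degree are killed; for the odd case the
operator is `(dX - dY) Qo^e' Lo^j'`, all commute), and `Qo^e' Lo^j' (dX - dY) = (-1)^j' (dX dY)^(e'+j') (dX - dY)^(2j'+1)` (`Lo = -dX dY (dX - dY)²` modulo 3); the coefficient of `dX^al dY^be` is `0` if `e' + j' > be`, and `±1` for `(i', j') = (i, j)`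
(`e' + j' = be`: then the power is `dX^(2j+1)`). -/
def S3Tri : Prop := ∀ (r s i j : ℕ), i / 2 + 3 * j + 1 < 3 ^ r → i / 2 + j < 3 ^ s →
  ∃ G : ℤ → ℤ → ZMod 3, Sym3 (r + 1) (s + 1) G ∧ ev3 (3 ^ (r + 1)) G i j ≠ 0 ∧
    ∀ i' j' : ℕ, ev3 (3 ^ (r + 1)) G i' j' ≠ 0 →
      (i' + 4 * j' < i + 4 * j ∨ (i' + 4 * j' = i + 4 * j ∧ i' / 2 + j' ≤ i / 2 + j))

/-- LIFP (from TRM). Lifting solutions of the relation to integers. Take any lifts; the defect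
`E(p) = F0(p) - F0(pB) - ...` is divisible by 3 and has total sum zero over the plane (`p ↦ pB` etc. are bijections, TRM); `E/3` has total sum zero, and every integral function with sum zero is the defect of some
`H : Fin 3 → ..`, because modulo defects `δ_p ≡ δ_(p B⁻¹)` (from `H0`), `δ_p ≡ δ_(p C'⁻¹)` (from `H1`), `δ_(p B⁻¹) ≡ δ_(p (C'A)⁻¹)` (from `H2`), so also `δ_p ≡ δ_(p A⁻¹)`: all `δ_p` are equivalent, since the plane is connected under `A` and `B`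
(`(x,y) A^z = (x + z, y/(1 + 9zy))`, `(x, y) B^z = (x/(1 + 9zx), y + z)`: move to `(0, y')` and then to `(0,0)`). Subtract `3 H`. Model: `StLifp` of CV. -/
def S3Lifp : Prop := ∀ (r s : ℕ) (f : Fin 3 → Fn3 (3 ^ r) (3 ^ s)), Rel3 f →
  ∃ F : Fin 3 → ZMod (3 ^ r) → ZMod (3 ^ s) → ℤ, Rel3 F ∧
    ∀ i x y, ((F i x y : ℤ) : ZMod 3) = f i x y

/-- LIF (from REL, LIFP, EX, UNI). Lifting symbols: every symbol `g` modulo 3 lifts to an integral symbol `G` with the same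
`ev3` modulo 3. Proof: REL, LIFP, EX over `ℤ`; the reduction of `G` is a symbol with the same three functions as
`g`, so by UNI it equals `g` up to a constant; `ev3` commutes with reduction. -/
def S3Lif : Prop := ∀ (r s : ℕ) (g : ℤ → ℤ → ZMod 3), Sym3 (r + 1) (s + 1) g →
  ∃ G : ℤ → ℤ → ℤ, Sym3 (r + 1) (s + 1) G ∧
    ∀ i j : ℕ, ((ev3 (3 ^ (r + 1)) G i j : ℤ) : ZMod 3) = ev3 (3 ^ (r + 1)) g i j

/-- UNB. Back to `Γ₀(3^n)` and to complex values: if `G` is an integral symbol of level `(r, s)` then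
`G0(p,q) = G(3^r p, q)` (as complex numbers) is a symbol of level `(0, r+s)` with `ev3 1 G0 = ev3 (3^r) G`. -/
def S3Unb : Prop := ∀ (r s : ℕ) (G : ℤ → ℤ → ℤ), Sym3 r s G →
  Sym3 0 (r + s) (fun p q => ((G (3 ^ r * p) q : ℤ) : ℂ)) ∧
    ∀ i j : ℕ, ev3 1 (fun p q => ((G (3 ^ r * p) q : ℤ) : ℂ)) i j = ((ev3 (3 ^ r) G i j : ℤ) : ℂ)

/-- CNT. Counting the index set. `DD3 (2k) = q(q+1)/3` with `q = 3^(k-1)` (`k ≥ 2`), `DD3 (2k+1) = q(q+1)` with `q = 3^(k-1)` (`k ≥ 1`): induction (`DD3 3 = 2`, `DD3 4 = 4`). The index set is two copies (parity of the first coordinate) of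
`{(e, j) : e + 3j + 1 < 3^(k-1)}` (the second condition follows), of size `∑_j (q - 1 - 3j) = q(q+1)/6`, resp. of `{(e, j) : e + 3j + 1 < 3^k, e + j < 3^(k-1)}`, where the first condition follows from the second, of size
`q(q+1)/2`. -/
def S3Cnt : Prop :=
  (∀ k : ℕ, 2 ≤ k → ((Finset.range (2 * 3 ^ k) ×ˢ Finset.range (3 ^ k)).filter fun t : ℕ × ℕ =>
    t.1 / 2 + 3 * t.2 + 1 < 3 ^ (k - 1) ∧ t.1 / 2 + t.2 < 3 ^ (k - 1)).card = DD3 (2 * k)) ∧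
  (∀ k : ℕ, 1 ≤ k → ((Finset.range (2 * 3 ^ (k + 1)) ×ˢ Finset.range (3 ^ (k + 1))).filter
    fun t : ℕ × ℕ => t.1 / 2 + 3 * t.2 + 1 < 3 ^ k ∧ t.1 / 2 + t.2 < 3 ^ (k - 1)).card =
    DD3 (2 * k + 1))

/-- LB from TRI, LIF, UNB, CNT. For `n = 2k` use `(r,s) = (k-1,k-1)`, for `n = 2k+1` use
`(r,s) = (k,k-1)`: level `(r+1, s+1)`. The matrix
`M (κ,(i,j)) = ev3 G_κ i j` (`κ`, `(i,j)` in the index set of CNT) is integral, and modulo 3 its rows are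
linearly independent: in a relation `∑ c_κ M(κ,·) = 0` take `κ0` maximal with `c_{κ0} ≠ 0` for the order
(`i+4j`, then `i/2 + j`), which determines `(i,j)`; the column `κ0` gives `c_{κ0} = 0`. So its determinant is
prime to `3`, nonzero in `ℂ`, and the vectors `evL3 (G_κ)` are independent. -/
def S3LBof : Prop := S3Tri → S3Lif → S3Unb → S3Cnt → S3LB

end Pool.Agent.Helper78.W3
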