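import Pool.Agent.Helper78.W3.StD

/-!
# Project W3, module CERT: finite computations for the leading forms of `T_7 + 1 - T_2²`, `T_2²`, `T_2`
-/

set_option autoImplicit false
set_option maxRecDepth 100000

namespace Pool.Agent.Helper78.W3

theorem hCert : S3Cert := by
  refine ⟨?_, ?_, ?_, ?_, ?_⟩
  · decide +kernel
  · decide +kernel
  · decide +kernel
  · decide +kernel
  · decide +kernel

end Pool.Agent.Helper78.W3
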