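import Pool.Agent.Helper78.W3.StD
set_option autoImplicit false
namespace Pool.Agent.Helper78.W3.ExM

open Pool.Agent.Helper14.CV (Homog EqC act Tl StFar StFex)
open Pool.Agent.Helper14.W3

private theorem cop {r : ℕ} {a : ℤ} (h : ¬ 3 ∣ a) : IsUnit ((a : ℤ) : ZMod (3 ^ r)) := by
  have h1 : IsCoprime a 3 := by
    have := (Int.prime_three.coprime_iff_not_dvd).2 h
    exact this.symm
  have h2 : IsCoprime a ((3 ^ r : ℕ) : ℤ) := by
    push_cast
    exact h1.pow_right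
  exact (ZMod.coe_int_isUnit_iff_isCoprime a (3 ^ r)).2 h2.symm

private theorem den {r : ℕ} {a c : ℤ} (x : ZMod (3 ^ r)) (h : ¬ 3 ∣ a) :
    IsUnit ((a : ZMod (3 ^ r)) + 9 * c * x) := by
  have : NeZero (3 ^ r) := ⟨pow_ne_zero _ three_ne_zero⟩
  have : (a : ZMod (3 ^ r)) + 9 * c * x = ((a + 9 * c * (x.val : ℤ) : ℤ) : ZMod (3 ^ r)) := by
    push_cast
    rw [ZMod.natCast_zmod_val]
  rw [this]
  apply cop
  intro h3
  exact h ((dvd_add_left (⟨3 * c * (x.val : ℤ), by ring⟩ : (3 : ℤ) ∣ 9 * c * (x.val : ℤ))).1 h3)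

private theorem res {a b c d : ℤ} (h : a * d - 9 * (b * c) = 1) :
    (a % 3 = 1 ∧ d % 3 = 1) ∨ (a % 3 = 2 ∧ d % 3 = 2) := by
  have h1 : (a * d) % 3 = 1 := by omega
  rw [Int.mul_emod] at h1
  rcases (by omega : a % 3 = 0 ∨ a % 3 = 1 ∨ a % 3 = 2) with ha | ha | ha <;>
  rcases (by omega : d % 3 = 0 ∨ d % 3 = 1 ∨ d % 3 = 2) with hd | hd | hd <;>
  rw [ha, hd] at h1 <;> simp_all

private theorem pl_det {q q' : ℕ} {a b c d : ℤ} {x : ZMod q} {y : ZMod q'}
    (h : Pl3 1 a b c d x y) : a * d - 9 * (b * c) = 1 := by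
  linear_combination h.1

private theorem pl_mk (r s : ℕ) {a b c d : ℤ} (h : a * d - 9 * (b * c) = 1) :
    ∃ (x : ZMod (3 ^ r)) (y : ZMod (3 ^ s)), Pl3 1 a b c d x y := by
  have hr := res h
  refine ⟨(b : ZMod (3 ^ r)) * (a : ZMod (3 ^ r))⁻¹, (c : ZMod (3 ^ s)) * (d : ZMod (3 ^ s))⁻¹,
    by linear_combination h, ?_, ?_⟩
  · rw [mul_assoc, ZMod.inv_mul_of_unit _ (cop (by omega)), mul_one]
  · rw [mul_assoc, ZMod.inv_mul_of_unit _ (cop (by omega)), mul_one]

private theorem pl_neg {q q' : ℕ} {a b c d : ℤ} {x : ZMod q} {y : ZMod q'}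
    (h : Pl3 1 a b c d x y) : Pl3 1 (-a) (-b) (-c) (-d) x y := by
  obtain ⟨h1, h2, h3⟩ := h
  refine ⟨by linear_combination h1, ?_, ?_⟩
  · push_cast
    linear_combination -h2
  · push_cast
    linear_combination -h3

private theorem pl_mul {r s : ℕ} {a b c d : ℤ} {x : ZMod (3 ^ r)} {y : ZMod (3 ^ s)}
    (h : Pl3 1 a b c d x y) {α β γ δ : ℤ} (hm : α * δ - 9 * (β * γ) = 1) :
    Pl3 1 (a * α + 9 * b * γ) (a * β + b * δ) (c * α + d * γ) (9 * c * β + d * δ)
      (((β : ZMod (3 ^ r)) + (δ : ZMod (3 ^ r)) * x) *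
        ((α : ZMod (3 ^ r)) + 9 * (γ : ZMod (3 ^ r)) * x)⁻¹)
      (((γ : ZMod (3 ^ s)) + (α : ZMod (3 ^ s)) * y) *
        ((δ : ZMod (3 ^ s)) + 9 * (β : ZMod (3 ^ s)) * y)⁻¹) := by
  obtain ⟨h1, h2, h3⟩ := h
  have hr := res hm
  have u1 := ZMod.inv_mul_of_unit _ (den (r := r) (a := α) (c := γ) x (by omega))
  have u2 := ZMod.inv_mul_of_unit _ (den (r := s) (a := δ) (c := β) y (by omega))
  refine ⟨?_, ?_, ?_⟩
  · have e : (a * α + 9 * b * γ) * (9 * c * β + d * δ) -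
        3 ^ (1 + 1) * (a * β + b * δ) * (c * α + d * γ) =
        (α * δ - 9 * (β * γ)) * (a * d - 3 ^ (1 + 1) * b * c) := by ring
    rw [e, hm, h1, one_mul]
  · push_cast
    rw [h2]
    linear_combination (-((a : ZMod (3 ^ r)) * ((β : ZMod (3 ^ r)) + δ * x))) * u1
  · push_cast
    rw [h3]
    linear_combination (-((d : ZMod (3 ^ s)) * ((γ : ZMod (3 ^ s)) + α * y))) * u2

private theorem pl_gam {r s : ℕ} {a b c d : ℤ} {x : ZMod (3 ^ r)} {y : ZMod (3 ^ s)}
    (h : Pl3 1 a b c d x y) {α β γ δ : ℤ} (hg : α * δ - (3 ^ (r + 1) * β) * (3 ^ (s + 1) * γ) = 1) :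
    Pl3 1 (α * a + 3 ^ (r + 1) * β * (3 * c)) (α * b + 3 ^ r * β * d)
      (3 ^ s * γ * a + δ * c) (3 ^ (s + 1) * γ * (3 * b) + δ * d) x y := by
  obtain ⟨h1, h2, h3⟩ := h
  have z1 : ((3 : ℤ) ^ r : ZMod (3 ^ r)) = 0 := by
    have := ZMod.natCast_self (3 ^ r)
    push_cast at this ⊢
    exact this
  have z2 : ((3 : ℤ) ^ s : ZMod (3 ^ s)) = 0 := by
    have := ZMod.natCast_self (3 ^ s)
    push_cast at this ⊢
    exact this
  refine ⟨?_, ?_, ?_⟩
  · have e : (α * a + 3 ^ (r + 1) * β * (3 * c)) * (3 ^ (s + 1) * γ * (3 * b) + δ * d) -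
        3 ^ (1 + 1) * (α * b + 3 ^ r * β * d) * (3 ^ s * γ * a + δ * c) =
        (α * δ - (3 ^ (r + 1) * β) * (3 ^ (s + 1) * γ)) * (a * d - 3 ^ (1 + 1) * b * c) := by
      ring
    rw [e, hg, h1, one_mul]
  · push_cast at z1 ⊢
    rw [pow_succ, z1, h2]
    ring
  · push_cast at z2 ⊢
    rw [pow_succ, z2, h3]
    ring

/-! ### the function on the edges -/

private def rk (p q : ℤ) : ℕ :=
  if q % 3 = 0 then 3 else if p % 3 = 0 then 0 else if (p - q) % 3 = 0 then 1 else 2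

private noncomputable def PX (r : ℕ) (a b : ℤ) : ZMod (3 ^ r) :=
  ((b / 3 : ℤ) : ZMod (3 ^ r)) * ((a : ℤ) : ZMod (3 ^ r))⁻¹

private theorem px_eq {r : ℕ} {a b A B : ℤ} {x : ZMod (3 ^ r)} (hA : A = a) (hB : B = 3 * b)
    (ha : ¬ 3 ∣ a) (h : (b : ZMod (3 ^ r)) = x * a) : PX r A B = x := by
  subst hA hB
  unfold PX
  have e : 3 * b / 3 = b := by omega
  rw [e, h, mul_assoc, ZMod.mul_inv_of_unit _ (cop ha), mul_one]

/-- the six representatives `1, T, T⁻¹, L, L⁻¹, V` -/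
private def rho : Fin 6 → ℤ × ℤ × ℤ × ℤ :=
  ![(1, 0, 0, 1), (1, 1, 0, 1), (1, -1, 0, 1), (1, 0, 1, 1), (1, 0, -1, 1), (2, 1, 1, 1)]

section

variable {R : Type} [AddCommGroup R] {r s : ℕ} (F : Fin 3 → ZMod (3 ^ r) → ZMod (3 ^ s) → R)

private def vl (k : Fin 6) (x : ZMod (3 ^ r)) (y : ZMod (3 ^ s)) : R :=
  ![F 0 x y, F 1 x y, F 2 x y, F 0 x y - F 1 x y, F 0 x y - F 2 x y,
    F 1 x y - tr 1 1 0 1 (F 2) x y] k

private noncomputable def E0 (a b c d : ℤ) : R :=
  if c % 3 = 0 then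
    if b % 3 = 0 then vl F 0 (PX r a b) (PX s d c)
    else if (b - a) % 3 = 0 then vl F 1 (PX r a (b - a)) (PX s (d - c) c)
    else vl F 2 (PX r a (b + a)) (PX s (d + c) c)
  else if b % 3 = 0 then
    if (c - d) % 3 = 0 then vl F 3 (PX r (a - b) b) (PX s d (c - d))
    else vl F 4 (PX r (a + b) b) (PX s d (c + d))
  else vl F 5 (PX r (a - b) (2 * b - a)) (PX s (2 * d - c) (c - d))

private noncomputable def EE (a b c d : ℤ) : R :=
  if rk b d < rk a c then E0 F a b c d else -E0 F b (-a) d (-c)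

/-- `(a b; c d) = γ ρ_k` and `v` is the value. -/
private def Val (a b c d : ℤ) (v : R) : Prop :=
  ∃ (a' b' c' d' : ℤ) (x : ZMod (3 ^ r)) (y : ZMod (3 ^ s)) (k : Fin 6), Pl3 1 a' b' c' d' x y ∧
    a = a' * (rho k).1 + 3 * b' * (rho k).2.2.1 ∧ b = a' * (rho k).2.1 + 3 * b' * (rho k).2.2.2 ∧
    c = 3 * c' * (rho k).1 + d' * (rho k).2.2.1 ∧ d = 3 * c' * (rho k).2.1 + d' * (rho k).2.2.2 ∧
    v = vl F k x y

variable {F}

private theorem val_neg {a b c d : ℤ} {v : R} (h : Val F a b c d v) :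
    Val F (-a) (-b) (-c) (-d) v := by
  obtain ⟨a', b', c', d', x, y, k, hp, rfl, rfl, rfl, rfl, rfl⟩ := h
  exact ⟨-a', -b', -c', -d', x, y, k, pl_neg hp, by ring, by ring, by ring, by ring, rfl⟩

private theorem val_gam {α β γ δ : ℤ}
    (hg : α * δ - (3 ^ (r + 1) * β) * (3 ^ (s + 1) * γ) = 1) {a b c d : ℤ} {v : R}
    (h : Val F a b c d v) :
    Val F (α * a + 3 ^ (r + 1) * β * c) (α * b + 3 ^ (r + 1) * β * d)
      (3 ^ (s + 1) * γ * a + δ * c) (3 ^ (s + 1) * γ * b + δ * d) v := by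
  obtain ⟨a', b', c', d', x, y, k, hp, rfl, rfl, rfl, rfl, rfl⟩ := h
  exact ⟨_, _, _, _, x, y, k, pl_gam hp hg, by ring, by ring, by ring, by ring, rfl⟩

private theorem val_main {a b c d : ℤ} {v : R} (h : Val F a b c d v) :
    rk b d < rk a c ∧ ¬ rk (-a) (-c) < rk b d ∧ E0 F a b c d = v := by
  obtain ⟨a', b', c', d', x, y, k, hp, rfl, rfl, rfl, rfl, rfl⟩ := h
  have hr := res (pl_det hp)
  obtain ⟨h1, h2, h3⟩ := hp
  fin_cases k
  · simp only [rho, Fin.zero_eta, Matrix.cons_val_zero]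
    refine ⟨?_, ?_, ?_⟩
    · unfold rk; split_ifs <;> omega
    · unfold rk; split_ifs <;> omega
    · unfold E0
      rw [if_pos (by omega), if_pos (by omega), px_eq (by ring) (by ring) (by omega) h2,
        px_eq (by ring) (by ring) (by omega) h3]
  · simp only [rho, Fin.mk_one, Matrix.cons_val_one, Matrix.cons_val_zero]
    refine ⟨?_, ?_, ?_⟩
    · unfold rk; split_ifs <;> omega
    · unfold rk; split_ifs <;> omega
    · unfold E0
      rw [if_pos (by omega), if_neg (by omega), if_pos (by omega),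
        px_eq (by ring) (by ring) (by omega) h2, px_eq (by ring) (by ring) (by omega) h3]
  · simp only [rho, Fin.reduceFinMk, Matrix.cons_val]
    refine ⟨?_, ?_, ?_⟩
    · unfold rk; split_ifs <;> omega
    · unfold rk; split_ifs <;> omega
    · unfold E0
      rw [if_pos (by omega), if_neg (by omega), if_neg (by omega),
        px_eq (by ring) (by ring) (by omega) h2, px_eq (by ring) (by ring) (by omega) h3]
  · simp only [rho, Fin.reduceFinMk, Matrix.cons_val]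
    refine ⟨?_, ?_, ?_⟩
    · unfold rk; split_ifs <;> omega
    · unfold rk; split_ifs <;> omega
    · unfold E0
      rw [if_neg (by omega), if_pos (by omega), if_pos (by omega),
        px_eq (by ring) (by ring) (by omega) h2, px_eq (by ring) (by ring) (by omega) h3]
  · simp only [rho, Fin.reduceFinMk, Matrix.cons_val]
    refine ⟨?_, ?_, ?_⟩
    · unfold rk; split_ifs <;> omega
    · unfold rk; split_ifs <;> omega
    · unfold E0
      rw [if_neg (by omega), if_pos (by omega), if_neg (by omega),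
        px_eq (by ring) (by ring) (by omega) h2, px_eq (by ring) (by ring) (by omega) h3]
  · simp only [rho, Fin.reduceFinMk, Matrix.cons_val]
    refine ⟨?_, ?_, ?_⟩
    · unfold rk; split_ifs <;> omega
    · unfold rk; split_ifs <;> omega
    · unfold E0
      rw [if_neg (by omega), if_neg (by omega),
        px_eq (by ring) (by ring) (by omega) h2, px_eq (by ring) (by ring) (by omega) h3]

private theorem ev {a b c d : ℤ} {v : R} (h : Val F a b c d v) : EE F a b c d = v := by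
  obtain ⟨h1, h2, h3⟩ := val_main h
  unfold EE
  rw [if_pos h1, h3]

private theorem evS {a b c d : ℤ} {v : R} (h : Val F a b c d v) :
    EE F b (-a) d (-c) = -v := by
  obtain ⟨h1, h2, h3⟩ := val_main h
  obtain ⟨h1', h2', h3'⟩ := val_main (val_neg h)
  unfold EE
  rw [if_neg h2, h3']

/-- `Val` of the matrix times `S`, other direction -/
private theorem evS' {a b c d : ℤ} {v : R} (h : Val F b (-a) d (-c) v) :
    EE F a b c d = -v := by
  have h1 := evS (val_neg h)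
  simp only [neg_neg] at h1
  exact h1

private theorem six {a b c d : ℤ} (h : a * d - b * c = 1)
    (hc : (3 ∣ c ∧ 3 ∣ b) ∨ (3 ∣ c ∧ 3 ∣ b - a) ∨ (3 ∣ c ∧ 3 ∣ b + a) ∨ (3 ∣ b ∧ 3 ∣ c - d) ∨
      (3 ∣ b ∧ 3 ∣ c + d) ∨ (3 ∣ b + a ∧ 3 ∣ c - d)) : ∃ v, Val F a b c d v := by
  rcases hc with ⟨⟨c', hc'⟩, b', hb'⟩ | ⟨⟨c', hc'⟩, b', hb'⟩ | ⟨⟨c', hc'⟩, b', hb'⟩ |
    ⟨⟨b', hb'⟩, c', hc'⟩ | ⟨⟨b', hb'⟩, c', hc'⟩ | ⟨⟨b', hb'⟩, c', hc'⟩
  · obtain ⟨x, y, hp⟩ := pl_mk r s (a := a) (b := b') (c := c') (d := d)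
      (by subst hc' hb'; linear_combination h)
    exact ⟨_, a, b', c', d, x, y, 0, hp, by simp [rho], by simp [rho, hb'], by simp [rho, hc'],
      by simp [rho], rfl⟩
  · obtain rfl : b = 3 * b' + a := by omega
    obtain ⟨x, y, hp⟩ := pl_mk r s (a := a) (b := b') (c := c') (d := d - c)
      (by subst hc'; linear_combination h)
    exact ⟨_, a, b', c', d - c, x, y, 1, hp, by simp [rho], by simp [rho]; ring,
      by simp [rho, hc'], by simp [rho, hc'], rfl⟩
  · obtain rfl : b = 3 * b' - a := by omega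
    obtain ⟨x, y, hp⟩ := pl_mk r s (a := a) (b := b') (c := c') (d := d + c)
      (by subst hc'; linear_combination h)
    exact ⟨_, a, b', c', d + c, x, y, 2, hp, by simp [rho], by simp [rho]; ring,
      by simp [rho, hc'], by simp [rho, hc'], rfl⟩
  · obtain rfl : c = 3 * c' + d := by omega
    obtain ⟨x, y, hp⟩ := pl_mk r s (a := a - b) (b := b') (c := c') (d := d)
      (by subst hb'; linear_combination h)
    exact ⟨_, a - b, b', c', d, x, y, 3, hp, by simp [rho, hb'], by simp [rho, hb'],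
      by simp [rho], by simp [rho], rfl⟩
  · obtain rfl : c = 3 * c' - d := by omega
    obtain ⟨x, y, hp⟩ := pl_mk r s (a := a + b) (b := b') (c := c') (d := d)
      (by subst hb'; linear_combination h)
    exact ⟨_, a + b, b', c', d, x, y, 4, hp, by simp [rho, hb'], by simp [rho, hb'],
      by simp [rho]; ring, by simp [rho], rfl⟩
  · obtain rfl : a = 3 * b' - b := by omega
    obtain rfl : c = 3 * c' + d := by omega
    obtain ⟨x, y, hp⟩ := pl_mk r s (a := 3 * b' - 2 * b) (b := b - b') (c := c') (d := d - 3 * c')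
      (by linear_combination h)
    exact ⟨_, 3 * b' - 2 * b, b - b', c', d - 3 * c', x, y, 5, hp, by simp [rho]; ring,
      by simp [rho]; ring, by simp [rho]; ring, by simp [rho], rfl⟩

private theorem cls0 : ∀ a b c d : ZMod 3, a * d - b * c = 1 →
    ((c = 0 ∧ b = 0) ∨ (c = 0 ∧ b - a = 0) ∨ (c = 0 ∧ b + a = 0) ∨ (b = 0 ∧ c - d = 0) ∨
      (b = 0 ∧ c + d = 0) ∨ (b + a = 0 ∧ c - d = 0)) ∨
    ((d = 0 ∧ -a = 0) ∨ (d = 0 ∧ -a - b = 0) ∨ (d = 0 ∧ -a + b = 0) ∨ (-a = 0 ∧ d - -c = 0) ∨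
      (-a = 0 ∧ d + -c = 0) ∨ (-a + b = 0 ∧ d - -c = 0)) := by
  decide

private theorem cls {a b c d : ℤ} (h : a * d - b * c = 1) :
    (∃ v, Val F a b c d v) ∨ (∃ v, Val F b (-a) d (-c) v) := by
  have h1 := cls0 a b c d (by exact_mod_cast congrArg (fun z : ℤ => (z : ZMod 3)) h)
  have e : ∀ z : ℤ, ((z : ℤ) : ZMod 3) = 0 → (3 : ℤ) ∣ z := fun z hz =>
    (ZMod.intCast_zmod_eq_zero_iff_dvd z 3).1 hz
  rcases h1 with h1 | h1
  · left
    apply six h
    rcases h1 with ⟨p, q⟩ | ⟨p, q⟩ | ⟨p, q⟩ | ⟨p, q⟩ | ⟨p, q⟩ | ⟨p, q⟩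
    · exact Or.inl ⟨e _ p, e _ q⟩
    · exact Or.inr (Or.inl ⟨e _ p, e _ (by push_cast; exact q)⟩)
    · exact Or.inr (Or.inr (Or.inl ⟨e _ p, e _ (by push_cast; exact q)⟩))
    · exact Or.inr (Or.inr (Or.inr (Or.inl ⟨e _ p, e _ (by push_cast; exact q)⟩)))
    · exact Or.inr (Or.inr (Or.inr (Or.inr (Or.inl ⟨e _ p, e _ (by push_cast; exact q)⟩))))
    · exact Or.inr (Or.inr (Or.inr (Or.inr (Or.inr ⟨e _ (by push_cast; exact p),
        e _ (by push_cast; exact q)⟩))))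
  · right
    apply six (by linear_combination h)
    rcases h1 with ⟨p, q⟩ | ⟨p, q⟩ | ⟨p, q⟩ | ⟨p, q⟩ | ⟨p, q⟩ | ⟨p, q⟩
    · exact Or.inl ⟨e _ p, e _ (by push_cast; exact q)⟩
    · exact Or.inr (Or.inl ⟨e _ p, e _ (by push_cast; exact q)⟩)
    · exact Or.inr (Or.inr (Or.inl ⟨e _ p, e _ (by push_cast; exact q)⟩))
    · exact Or.inr (Or.inr (Or.inr (Or.inl ⟨e _ (by push_cast; exact p), e _ (by push_cast; exact q)⟩)))
    · exact Or.inr (Or.inr (Or.inr (Or.inr (Or.inl ⟨e _ (by push_cast; exact p), e _ (by push_cast; exact q)⟩))))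
    · exact Or.inr (Or.inr (Or.inr (Or.inr (Or.inr ⟨e _ (by push_cast; exact p),
        e _ (by push_cast; exact q)⟩))))

private theorem ee_S {a b c d : ℤ} (h : a * d - b * c = 1) :
    EE F b (-a) d (-c) = -EE F a b c d := by
  rcases cls (F := F) h with ⟨v, hv⟩ | ⟨v, hv⟩
  · rw [ev hv, evS hv]
  · rw [ev hv, evS' hv, neg_neg]

private theorem ee_neg {a b c d : ℤ} (h : a * d - b * c = 1) :
    EE F (-a) (-b) (-c) (-d) = EE F a b c d := by
  rcases cls (F := F) h with ⟨v, hv⟩ | ⟨v, hv⟩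
  · rw [ev hv, ev (val_neg hv)]
  · rw [evS' hv, evS hv]

private theorem ee_gam {α β γ δ : ℤ}
    (hg : α * δ - (3 ^ (r + 1) * β) * (3 ^ (s + 1) * γ) = 1) {a b c d : ℤ}
    (h : a * d - b * c = 1) :
    EE F (α * a + 3 ^ (r + 1) * β * c) (α * b + 3 ^ (r + 1) * β * d)
      (3 ^ (s + 1) * γ * a + δ * c) (3 ^ (s + 1) * γ * b + δ * d) = EE F a b c d := by
  rcases cls (F := F) h with ⟨v, hv⟩ | ⟨v, hv⟩
  · rw [ev hv, ev (val_gam hg hv)]
  · rw [evS' hv]
    apply evS'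
    have := val_gam hg hv
    convert this using 1 <;> ring

private def Tri (F : Fin 3 → ZMod (3 ^ r) → ZMod (3 ^ s) → R) (a b c d : ℤ) : Prop :=
  EE F a b c d = EE F a (a + b) c (c + d) + EE F (a + b) b (c + d) d

private theorem tri_rot {a b c d : ℤ} (h : a * d - b * c = 1)
    (ht : Tri F (a + b) (-a) (c + d) (-c)) : Tri F a b c d := by
  unfold Tri at ht ⊢
  have e1 : a + b + -a = b := by ring
  have e2 : c + d + -c = d := by ring
  rw [e1, e2, ee_S h, ee_S (a := a) (b := a + b) (c := c) (d := c + d)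
    (by linear_combination h)] at ht
  rw [eq_add_neg_iff_add_eq] at ht
  rw [← ht]
  abel

/-- the value for `γ ρ_k`, flexible form -/
private theorem evk (k : Fin 6) {a b c d a' b' c' d' : ℤ} {x : ZMod (3 ^ r)} {y : ZMod (3 ^ s)}
    (hp : Pl3 1 a' b' c' d' x y)
    (ha : a = a' * (rho k).1 + 3 * b' * (rho k).2.2.1)
    (hb : b = a' * (rho k).2.1 + 3 * b' * (rho k).2.2.2)
    (hc : c = 3 * c' * (rho k).1 + d' * (rho k).2.2.1)
    (hd : d = 3 * c' * (rho k).2.1 + d' * (rho k).2.2.2) : EE F a b c d = vl F k x y :=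
  ev ⟨a', b', c', d', x, y, k, hp, ha, hb, hc, hd, rfl⟩

private theorem evkS (k : Fin 6) {a b c d a' b' c' d' : ℤ} {x : ZMod (3 ^ r)} {y : ZMod (3 ^ s)}
    (hp : Pl3 1 a' b' c' d' x y)
    (ha : b = a' * (rho k).1 + 3 * b' * (rho k).2.2.1)
    (hb : -a = a' * (rho k).2.1 + 3 * b' * (rho k).2.2.2)
    (hc : d = 3 * c' * (rho k).1 + d' * (rho k).2.2.1)
    (hd : -c = 3 * c' * (rho k).2.1 + d' * (rho k).2.2.2) : EE F a b c d = -vl F k x y :=
  evS' ⟨a', b', c', d', x, y, k, hp, ha, hb, hc, hd, rfl⟩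

private theorem tri_1 {a b c d : ℤ} (h : a * d - 9 * (b * c) = 1) :
    Tri F a (3 * b) (3 * c) d := by
  obtain ⟨x, y, hp⟩ := pl_mk r s h
  unfold Tri
  rw [evk 0 hp (by simp [rho]) (by simp [rho]) (by simp [rho]) (by simp [rho]),
    evk 1 hp (by simp [rho]) (by simp [rho]) (by simp [rho]) (by simp [rho]),
    evk 3 hp (by simp [rho]) (by simp [rho]) (by simp [rho]) (by simp [rho])]
  simp only [vl, Matrix.cons_val]
  abel

private theorem tri_2 {a b c d : ℤ} (h : a * d - 9 * (b * c) = 1) :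
    Tri F a (3 * b - a) (3 * c) (d - 3 * c) := by
  obtain ⟨x, y, hp⟩ := pl_mk r s h
  unfold Tri
  rw [evk 2 hp (by simp [rho]) (by simp [rho]; ring) (by simp [rho]) (by simp [rho]; ring),
    evk 0 hp (by simp [rho]) (by simp [rho]) (by simp [rho]) (by simp [rho]),
    evkS 4 (pl_neg hp) (by simp [rho]; ring) (by simp [rho]) (by simp [rho]; ring) (by simp [rho])]
  simp only [vl, Matrix.cons_val]
  abel

private theorem tri_3 {a b c d : ℤ} (h : a * d - 9 * (b * c) = 1) :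
    Tri F a (a + 3 * b) (3 * c) (3 * c + d) := by
  obtain ⟨x, y, hp⟩ := pl_mk r s h
  have hA := pl_mul hp (α := 1) (β := 1) (γ := 0) (δ := 1) (by ring)
  unfold Tri
  rw [evk 1 hp (by simp [rho]) (by simp [rho]) (by simp [rho]) (by simp [rho]),
    evk 2 hA (by simp [rho]) (by simp [rho]; ring) (by simp [rho]) (by simp [rho]; ring),
    evk 5 hp (by simp [rho]; ring) (by simp [rho]) (by simp [rho]; ring) (by simp [rho])]
  simp only [vl, Matrix.cons_val]
  unfold tr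
  abel

private theorem tri_4 (hTrm : S3Trm) (hR : Rel3 F) {a b c d : ℤ} (h : a * d - 9 * (b * c) = 1) :
    Tri F (a + 3 * b) (3 * b) (3 * c + d) d := by
  obtain ⟨x, y, hp⟩ := pl_mk r s h
  have hB := pl_mul hp (α := 1) (β := 0) (γ := 1) (δ := 1) (by ring)
  have hC := pl_mul hp (α := -2) (β := 1) (γ := -1) (δ := 4) (by ring)
  have hr := hR x y
  unfold Tri
  rw [evk 3 hp (by simp [rho]) (by simp [rho]) (by simp [rho]) (by simp [rho]),
    evkS 5 (pl_neg hC) (by simp [rho]; ring) (by simp [rho]; ring) (by simp [rho]; ring)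
      (by simp [rho]; ring),
    evk 4 hB (by simp [rho]; ring) (by simp [rho]) (by simp [rho]; ring) (by simp [rho])]
  have ht := congrFun (congrFun ((hTrm R r s (F 2)).1 (-2) 1 (-1) 4 1 1 0 1 (by norm_num)
    (by norm_num) (by norm_num) (by norm_num)) x) y
  have e1 : tr (-2 * 1 + 9 * 1 * 0) (-2 * 1 + 1 * 1) (-1 * 1 + 4 * 0) (9 * -1 * 1 + 4 * 1) (F 2) x y =
      tr (-2) (-1) (-1) (-5) (F 2) x y := by norm_num
  rw [e1] at ht
  rw [← ht] at hr
  simp only [vl, Matrix.cons_val]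
  have e2 : F 0 x y = F 1 x y + tr 1 0 1 1 (F 0) x y - tr (-2) 1 (-1) 4 (F 1) x y -
      tr 1 0 1 1 (F 2) x y + tr (-2) 1 (-1) 4 (tr 1 1 0 1 (F 2)) x y := by
    rw [← sub_eq_zero, ← hr]
    abel
  rw [e2]
  show _ = -(tr (-2) 1 (-1) 4 (F 1) x y - tr (-2) 1 (-1) 4 (tr 1 1 0 1 (F 2)) x y) +
    (tr 1 0 1 1 (F 0) x y - tr 1 0 1 1 (F 2) x y)
  abel

private theorem tri_all (hTrm : S3Trm) (hR : Rel3 F) {a b c d : ℤ} (h : a * d - b * c = 1) :
    Tri F a b c d := by
  -- a column is divisible by three in the lower entry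
  have key : ∀ {a b c d : ℤ}, a * d - b * c = 1 → 3 ∣ c → Tri F a b c d := by
    intro a b c d h hc
    obtain ⟨c', rfl⟩ := hc
    have h1 : (a * d) % 3 = 1 := by
      have : a * d = 1 + 3 * (b * c') := by linear_combination h
      omega
    have h2 : ¬ 3 ∣ a := by
      rintro ⟨k, rfl⟩
      have : 3 * k * d = 3 * (k * d) := by ring
      omega
    have h3 : 3 ∣ b ∨ 3 ∣ b - a ∨ 3 ∣ b + a := by
      rcases (by omega : a % 3 = 1 ∨ a % 3 = 2) with ha | ha <;>
      rcases (by omega : b % 3 = 0 ∨ b % 3 = 1 ∨ b % 3 = 2) with hb | hb | hb <;> omega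
    rcases h3 with ⟨b', hb⟩ | ⟨b', hb⟩ | ⟨b', hb⟩
    · subst hb
      exact tri_1 (by linear_combination h)
    · obtain rfl : b = a + 3 * b' := by omega
      have := tri_3 (F := F) (a := a) (b := b') (c := c') (d := d - 3 * c')
        (by linear_combination h)
      have e : 3 * c' + (d - 3 * c') = d := by ring
      rw [e] at this
      exact this
    · obtain rfl : b = 3 * b' - a := by omega
      have := tri_2 (F := F) (a := a) (b := b') (c := c') (d := d + 3 * c')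
        (by linear_combination h)
      have e : d + 3 * c' - 3 * c' = d := by ring
      rw [e] at this
      exact this
  have key4 : ∀ {a b c d : ℤ}, a * d - b * c = 1 → 3 ∣ b → 3 ∣ c - d → Tri F a b c d := by
    intro a b c d h hb hc
    obtain ⟨b', rfl⟩ := hb
    obtain ⟨c', hc'⟩ := hc
    obtain rfl : c = 3 * c' + d := by omega
    have := tri_4 (F := F) hTrm hR (a := a - 3 * b') (b := b') (c := c') (d := d)
      (by linear_combination h)
    have e : a - 3 * b' + 3 * b' = a := by ring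
    rw [e] at this
    exact this
  by_cases hc : 3 ∣ c
  · exact key h hc
  by_cases hcd : 3 ∣ c + d
  · exact tri_rot h (key (by linear_combination h) hcd)
  by_cases hd : 3 ∣ d
  · exact tri_rot h (tri_rot (by linear_combination h) (key (by linear_combination h) (by omega)))
  -- now `c = d` modulo three
  have hcd' : 3 ∣ c - d := by
    rcases (by omega : c % 3 = 1 ∨ c % 3 = 2) with ha | ha <;>
    rcases (by omega : d % 3 = 1 ∨ d % 3 = 2) with hb | hb <;> omega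
  by_cases hb : 3 ∣ b
  · exact key4 h hb hcd'
  by_cases ha : 3 ∣ a
  · exact tri_rot h (key4 (by linear_combination h) (by omega) (by omega))
  · refine tri_rot h (tri_rot (by linear_combination h) (key4 (by linear_combination h) ?_ (by omega)))
    have h1 := cls0 a b c d (by exact_mod_cast congrArg (fun z : ℤ => (z : ZMod 3)) h)
    have e : ∀ z : ℤ, ((z : ℤ) : ZMod 3) = 0 → (3 : ℤ) ∣ z := fun z hz =>
      (ZMod.intCast_zmod_eq_zero_iff_dvd z 3).1 hz
    rcases h1 with (⟨p, q⟩ | ⟨p, q⟩ | ⟨p, q⟩ | ⟨p, q⟩ | ⟨p, q⟩ | ⟨p, q⟩) |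
      (⟨p, q⟩ | ⟨p, q⟩ | ⟨p, q⟩ | ⟨p, q⟩ | ⟨p, q⟩ | ⟨p, q⟩)
    · exact absurd (e _ p) hc
    · exact absurd (e _ p) hc
    · exact absurd (e _ p) hc
    · exact absurd (e _ p) hb
    · exact absurd (e _ p) hb
    · have := e (b + a) (by push_cast; exact p)
      omega
    · exact absurd (e _ p) hd
    · exact absurd (e _ p) hd
    · exact absurd (e _ p) hd
    · exact absurd (e (-a) (by push_cast; exact p)) (by omega)
    · exact absurd (e (-a) (by push_cast; exact p)) (by omega)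
    · exact absurd (e (d - -c) (by push_cast; exact q)) (by omega)

end

theorem hEx (hTrm : S3Trm) (hPlA : S3PlA) (hFex : StFex) (hFar : StFar) : S3Ex := by
  intro R _ r s F hR
  obtain ⟨G, hGh, hG⟩ := hFex R inferInstance (EE F) (fun a b c d h =>
    ⟨ee_neg h, ee_S h, tri_all hTrm hR h⟩)
  refine ⟨G, ⟨hGh, ?_⟩, ?_⟩
  · intro α β' γ' δ hdet hβ hγ
    obtain ⟨β, rfl⟩ := hβ
    obtain ⟨γ, rfl⟩ := hγ
    have hdet0 : α * δ - 3 ^ (r + 1) * β * (3 ^ (s + 1) * γ) ≠ 0 := by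
      rw [hdet]
      exact one_ne_zero
    have hH : Homog (act α (3 ^ (r + 1) * β) (3 ^ (s + 1) * γ) δ G - G) := by
      rw [sub_eq_add_neg]
      exact (hGh.act hdet0).add hGh.neg
    obtain ⟨k, hk⟩ := hFar R inferInstance _ hH (by
      intro a b c d h
      have h1 := hG a b c d h
      have h2 := hG (α * a + 3 ^ (r + 1) * β * c) (α * b + 3 ^ (r + 1) * β * d)
        (3 ^ (s + 1) * γ * a + δ * c) (3 ^ (s + 1) * γ * b + δ * d)
        (by linear_combination (a * d - b * c) * hdet + h)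
      rw [ee_gam hdet h, ← h1] at h2
      show G (α * a + 3 ^ (r + 1) * β * c) (3 ^ (s + 1) * γ * a + δ * c) - G a c =
        G (α * b + 3 ^ (r + 1) * β * d) (3 ^ (s + 1) * γ * b + δ * d) - G b d
      have h3 := sub_eq_iff_eq_add.1 h2
      rw [h3]
      abel)
    refine ⟨k, fun p q hpq => ?_⟩
    have h4 := hk p q hpq
    have h5 : act α (3 ^ (r + 1) * β) (3 ^ (s + 1) * γ) δ G p q - G p q = k := by
      have h6 : (0 : ℤ → ℤ → R) p q = 0 := rfl
      rw [h6, zero_add] at h4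
      exact h4
    rw [sub_eq_iff_eq_add.1 h5, add_comm]
  · intro i
    funext x y
    have hp := hPlA 1 r s x y
    have hd := pl_det hp
    have e : ∀ (k : Fin 6) (u1 u2 v1 v2 : ℤ), rho k = (u1, v1, u2, v2) → u1 * v2 - u2 * v1 = 1 →
        edge3 1 u1 u2 v1 v2 G x y = vl F k x y := by
      intro k u1 u2 v1 v2 hk hdet
      rw [← evk (F := F) k hp rfl rfl rfl rfl, hk]
      rw [← hG _ _ _ _ ?_]
      · unfold edge3
        congr 1
        · congr 1 <;> ring
        · congr 1 <;> ring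
      · simp only
        linear_combination (u1 * v2 - u2 * v1) * hd + hdet
    fin_cases i
    · exact e 0 1 0 0 1 rfl (by norm_num)
    · exact e 1 1 0 1 1 rfl (by norm_num)
    · exact e 2 1 0 (-1) 1 rfl (by norm_num)

end Pool.Agent.Helper78.W3.ExM
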