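import Pool.Agent.Helper78.W3.StD
set_option autoImplicit false
namespace Pool.Agent.Helper78.W3

private theorem cop {r : ℕ} {a : ℤ} (h : ¬ 3 ∣ a) : IsUnit ((a : ℤ) : ZMod (3 ^ r)) := by
  have h1 : IsCoprime a 3 := by
    have := (Int.prime_three.coprime_iff_not_dvd).2 h
    exact this.symm
  have h2 : IsCoprime a ((3 ^ r : ℕ) : ℤ) := by
    push_cast
    exact h1.pow_right
  exact (ZMod.coe_int_isUnit_iff_isCoprime a (3 ^ r)).2 h2.symm

private theorem den {r : ℕ} {a c : ℤ} (x : ZMod (3 ^ r)) (h : ¬ 3 ∣ a) :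
    IsUnit ((a : ZMod (3 ^ r)) + 9 * c * x) := by
  have : NeZero (3 ^ r) := ⟨pow_ne_zero _ three_ne_zero⟩
  have : (a : ZMod (3 ^ r)) + 9 * c * x = ((a + 9 * c * (x.val : ℤ) : ℤ) : ZMod (3 ^ r)) := by
    push_cast
    rw [ZMod.natCast_zmod_val]
  rw [this]
  apply cop
  intro h3
  exact h ((dvd_add_left (⟨3 * c * (x.val : ℤ), by ring⟩ : (3 : ℤ) ∣ 9 * c * (x.val : ℤ))).1 h3)

private theorem invq {n : ℕ} {z w u : ZMod n} (hu : IsUnit u) (hw : IsUnit w) :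
    z * u⁻¹ * (w * u⁻¹)⁻¹ = z * w⁻¹ := by
  have h1 := ZMod.mul_inv_of_unit u hu
  have h2 := ZMod.mul_inv_of_unit w hw
  have h3 : (w * u⁻¹)⁻¹ = w⁻¹ * u := by
    apply ZMod.inv_eq_of_mul_eq_one
    linear_combination w * w⁻¹ * h1 + h2
  rw [h3]
  linear_combination z * w⁻¹ * h1

private theorem invk {n : ℕ} {z w k : ZMod n} (hk : IsUnit k) (hw : IsUnit w) :
    (k * z) * (k * w)⁻¹ = z * w⁻¹ := by
  have h1 := ZMod.mul_inv_of_unit k hk
  have h2 := ZMod.mul_inv_of_unit w hw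
  have h3 : (k * w)⁻¹ = k⁻¹ * w⁻¹ := by
    apply ZMod.inv_eq_of_mul_eq_one
    linear_combination w * w⁻¹ * h1 + h2
  rw [h3]
  linear_combination z * w⁻¹ * h1

theorem hTrm : S3Trm := by
  intro R r s F
  refine ⟨?_, ?_, ?_⟩
  · intro a b c d a' b' c' d' ha hd ha' hd'
    funext x y
    have e1 : ((b' : ZMod (3 ^ r)) + d' * (((b : ZMod (3 ^ r)) + d * x) * ((a : ZMod (3 ^ r)) + 9 * c * x)⁻¹)) *
        ((a' : ZMod (3 ^ r)) + 9 * c' * (((b : ZMod (3 ^ r)) + d * x) * ((a : ZMod (3 ^ r)) + 9 * c * x)⁻¹))⁻¹ =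
        (((a * b' + b * d' : ℤ) : ZMod (3 ^ r)) + ((9 * c * b' + d * d' : ℤ) : ZMod (3 ^ r)) * x) *
        (((a * a' + 9 * b * c' : ℤ) : ZMod (3 ^ r)) + 9 * ((c * a' + d * c' : ℤ) : ZMod (3 ^ r)) * x)⁻¹ := by
      have hu := den (r := r) (c := c) x ha
      have hw : IsUnit (((a * a' + 9 * b * c' : ℤ) : ZMod (3 ^ r)) + 9 * ((c * a' + d * c' : ℤ) : ZMod (3 ^ r)) * x) := by
        apply den
        intro h
        have h3 : (3 : ℤ) ∣ a * a' :=
          (dvd_add_left (⟨3 * b * c', by ring⟩ : (3 : ℤ) ∣ 9 * b * c')).1 h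
        exact (Int.prime_three.dvd_or_dvd h3).elim ha ha'
      have h1 := ZMod.mul_inv_of_unit _ hu
      rw [← invq hu hw]
      congr 1
      · push_cast
        linear_combination (-(b' : ZMod (3 ^ r))) * h1
      · congr 1
        push_cast
        linear_combination (-(a' : ZMod (3 ^ r))) * h1
    have e2 : ((c' : ZMod (3 ^ s)) + a' * (((c : ZMod (3 ^ s)) + a * y) * ((d : ZMod (3 ^ s)) + 9 * b * y)⁻¹)) *
        ((d' : ZMod (3 ^ s)) + 9 * b' * (((c : ZMod (3 ^ s)) + a * y) * ((d : ZMod (3 ^ s)) + 9 * b * y)⁻¹))⁻¹ =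
        (((c * a' + d * c' : ℤ) : ZMod (3 ^ s)) + ((a * a' + 9 * b * c' : ℤ) : ZMod (3 ^ s)) * y) *
        (((9 * c * b' + d * d' : ℤ) : ZMod (3 ^ s)) + 9 * ((a * b' + b * d' : ℤ) : ZMod (3 ^ s)) * y)⁻¹ := by
      have hu := den (r := s) (c := b) y hd
      have hw : IsUnit (((9 * c * b' + d * d' : ℤ) : ZMod (3 ^ s)) + 9 * ((a * b' + b * d' : ℤ) : ZMod (3 ^ s)) * y) := by
        apply den
        intro h
        have h3 : (3 : ℤ) ∣ d * d' :=
          (dvd_add_right (⟨3 * c * b', by ring⟩ : (3 : ℤ) ∣ 9 * c * b')).1 h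
        exact (Int.prime_three.dvd_or_dvd h3).elim hd hd'
      have h1 := ZMod.mul_inv_of_unit _ hu
      rw [← invq hu hw]
      congr 1
      · push_cast
        linear_combination (-(c' : ZMod (3 ^ s))) * h1
      · congr 1
        push_cast
        linear_combination (-(d' : ZMod (3 ^ s))) * h1
    show F _ _ = F _ _
    rw [e1, e2]
  · funext x y
    show F _ _ = F _ _
    have h1 : ((1 : ZMod (3 ^ r)))⁻¹ = 1 := ZMod.inv_eq_of_mul_eq_one _ _ _ (by ring)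
    have h2 : ((1 : ZMod (3 ^ s)))⁻¹ = 1 := ZMod.inv_eq_of_mul_eq_one _ _ _ (by ring)
    congr 1 <;> simp [h1, h2]
  · intro k a b c d hk ha hd
    funext x y
    show F _ _ = F _ _
    congr 1
    · rw [← invk (cop (r := r) hk) (den (r := r) (c := c) x ha)]
      push_cast
      ring_nf
    · rw [← invk (cop (r := s) hk) (den (r := s) (c := b) y hd)]
      push_cast
      ring_nf

end Pool.Agent.Helper78.W3
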