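import Pool.Agent.Helper14.CV.StD
import Pool.Agent.Helper14.W3.StB

/-!
# Project W3 (level `3^n`): plane functions and the upper bound for new symbols

Names with a `3` are the analogues of the names of project CV (`Helper14/CV/StC.lean`) for `2^n`. Models for the modules: the modules of
CV with the same name, `Pool/Agent/Helper*/CV/M_<Name>.lean`.
-/

set_option autoImplicit false

namespace Pool.Agent.Helper78.W3

open Pool.Agent.Helper14.CV (Homog EqC act Tl StFar StFex)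
open Pool.Agent.Helper14.W3

/-- The matrix `(a, 3^μ b; 3 c, d)` has determinant one and plane coordinates `(x, y)`, that is
`b = x a` modulo `q` and `c = y d` modulo `q'`. -/
def Pl3 (μ : ℕ) {q q' : ℕ} (a b c d : ℤ) (x : ZMod q) (y : ZMod q') : Prop :=
  a * d - 3 ^ (μ + 1) * b * c = 1 ∧ (b : ZMod q) = x * a ∧ (c : ZMod q') = y * d

/-- The entry `Y` of the standard matrix `(1, 3^μ X; 3 Y, 1 + 3^(μ+1) X Y)`, `X = x.val`, with
coordinates `(x, y)`. -/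
noncomputable def rY3 (μ : ℕ) {q q' : ℕ} (x : ZMod q) (y : ZMod q') : ℤ :=
  ((y * (1 - 3 ^ (μ + 1) * ((x.val : ℕ) : ZMod q') * y)⁻¹).val : ℤ)

/-- The value of the symbol of `G` on the path from `g v` to `g u` (`u = (u1,u2)`, `v = (v1,v2)`),
where `g` is the standard matrix with plane coordinates `(x, y)`. -/
noncomputable def edge3 {R : Type} [AddCommGroup R] (μ : ℕ) {q q' : ℕ} (u1 u2 v1 v2 : ℤ)
    (G : ℤ → ℤ → R) (x : ZMod q) (y : ZMod q') : R :=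
  G (u1 + 3 ^ μ * (x.val : ℤ) * u2) (3 * rY3 μ x y * u1 + (1 + 3 ^ (μ + 1) * (x.val : ℤ) * rY3 μ x y) * u2)
  - G (v1 + 3 ^ μ * (x.val : ℤ) * v2) (3 * rY3 μ x y * v1 + (1 + 3 ^ (μ + 1) * (x.val : ℤ) * rY3 μ x y) * v2)

/-- PLA. The standard matrix has the right coordinates. (`1 - 3^(μ+1) X y` is a unit of
`ZMod (3^s)`; `Y = y (1 - 3^(μ+1) X y)⁻¹` satisfies `Y = y (1 + 3^(μ+1) X Y)`.) -/
def S3PlA : Prop := ∀ (μ r s : ℕ) (x : ZMod (3 ^ r)) (y : ZMod (3 ^ s)),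
  Pl3 μ 1 (x.val : ℤ) (rY3 μ x y) (1 + 3 ^ (μ + 1) * (x.val : ℤ) * rY3 μ x y) x y

/-- PLU. Two matrices with the same coordinates differ by an element
`(α β; γ δ)` with `3^(r+μ) ∣ β`, `3^(s+1) ∣ γ` on the left: `(α β; γ δ) = g' g⁻¹`,
`β = 3^μ (a b' - a' b)`, `γ = 3 (c' d - c d')`. -/
def S3PlU : Prop := ∀ (μ r s : ℕ) (x : ZMod (3 ^ r)) (y : ZMod (3 ^ s)) (a b c d a' b' c' d' : ℤ),
  Pl3 μ a b c d x y → Pl3 μ a' b' c' d' x y → ∃ α β γ δ : ℤ, α * δ - β * γ = 1 ∧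
    (3 : ℤ) ^ (r + μ) ∣ β ∧ (3 : ℤ) ^ (s + 1) ∣ γ ∧
    a' = α * a + β * (3 * c) ∧ 3 ^ μ * b' = α * (3 ^ μ * b) + β * d ∧
    3 * c' = γ * a + δ * (3 * c) ∧ d' = γ * (3 ^ μ * b) + δ * d

/-- EDG (from PLA, PLU). For a symbol `G` the value on the path from `g v` to `g u` depends only on the plane
coordinates of `g`: it is `edge3`. -/
def S3Edg : Prop := ∀ (R : Type) (_ : AddCommGroup R) (μ r s : ℕ) (G : ℤ → ℤ → R),
  Sym3 (r + μ) (s + 1) G → ∀ (u1 u2 v1 v2 : ℤ), (u1 ≠ 0 ∨ u2 ≠ 0) → (v1 ≠ 0 ∨ v2 ≠ 0) →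
  ∀ (x : ZMod (3 ^ r)) (y : ZMod (3 ^ s)) (a b c d : ℤ), Pl3 μ a b c d x y →
  edge3 μ u1 u2 v1 v2 G x y = G (a * u1 + 3 ^ μ * b * u2) (3 * c * u1 + d * u2) -
    G (a * v1 + 3 ^ μ * b * v2) (3 * c * v1 + d * v2)

/-- Balanced new symbols, even exponent `n = 2k`. -/
def BalE3 (k : ℕ) (G : ℤ → ℤ → ℂ) : Prop :=
  Sym3 k k G ∧ EqC (G + act 1 (3 ^ (k - 1)) 0 1 G + act 1 (2 * 3 ^ (k - 1)) 0 1 G) 0 ∧
    EqC (G + act 1 0 (3 ^ (k - 1)) 1 G + act 1 0 (2 * 3 ^ (k - 1)) 1 G) 0 ∧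
    EqC (act 0 (-1) 1 0 G) (-G) ∧ EqC (act (-1) 0 0 1 G) G

/-- Balanced new symbols, odd exponent `n = 2k+1`. -/
def BalO3 (k : ℕ) (G : ℤ → ℤ → ℂ) : Prop :=
  Sym3 k (k + 1) G ∧ EqC (G + act 1 (3 ^ (k - 1)) 0 1 G + act 1 (2 * 3 ^ (k - 1)) 0 1 G) 0 ∧
    EqC (G + act 1 0 (3 ^ k) 1 G + act 1 0 (2 * 3 ^ k) 1 G) 0 ∧
    EqC (act 0 (-1) 3 0 G) (-G) ∧ EqC (act (-1) 0 0 1 G) G

/-- BAL. Transport to the balanced form by `(1 0; 0 3^k)` (matrix identities up to scalars, for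
instance `(3 1; 0 3) (1 0; 0 3^k) = 3 (1 0; 0 3^k) (1 3^(k-1); 0 1)`,
`(1 0; 3^(n-1) 1) (1 0; 0 3^k) = (1 0; 0 3^k) (1 0; 3^(n-1-k) 1)`, `(0 -1; 3^(2k) 0) (1 0; 0 3^k) = 3^k (1 0; 0 3^k) (0 -1; 1 0)`,
`(0 -1; 3^(2k+1) 0) (1 0; 0 3^k) = 3^k (1 0; 0 3^k) (0 -1; 3 0)`; `act M (act M' G) = act (M' M) G`). -/
def S3Bal : Prop := ∀ (k : ℕ) (G : ℤ → ℤ → ℂ), 1 ≤ k →
  (NewSym3 (2 * k) G → BalE3 k (act 1 0 0 (3 ^ k) G)) ∧
  (NewSym3 (2 * k + 1) G → BalO3 k (act 1 0 0 (3 ^ k) G)) ∧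
  (Homog G → EqC (act 1 0 0 (3 ^ k) G) 0 → EqC G 0)

/-- Functions `F` on `(ZMod (3^(k-1)))²` whose sums over the three translates by `3^(k-2)` vanish, in both variables, with
`F(-y,-x) = F(x,y)` and `F(-x,-y) = -F(x,y)`. -/
def antiE3 (k : ℕ) : Submodule ℂ (ZMod (3 ^ (k - 1)) → ZMod (3 ^ (k - 1)) → ℂ) where
  carrier := {F | ∀ x y, F x y + F (x + 3 ^ (k - 2)) y + F (x + 2 * 3 ^ (k - 2)) y = 0 ∧
    F x y + F x (y + 3 ^ (k - 2)) + F x (y + 2 * 3 ^ (k - 2)) = 0 ∧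
    F (-y) (-x) = F x y ∧ F (-x) (-y) = -F x y}
  add_mem' := by
    intro F F' h h' x y
    obtain ⟨h1, h2, h3, h4⟩ := h x y
    obtain ⟨g1, g2, g3, g4⟩ := h' x y
    simp only [Pi.add_apply]
    refine ⟨by linear_combination h1 + g1, by linear_combination h2 + g2, by rw [h3, g3], by rw [h4, g4]; ring⟩
  zero_mem' := by intro x y; simp
  smul_mem' := by
    intro c F h x y
    obtain ⟨h1, h2, h3, h4⟩ := h x y
    simp only [Pi.smul_apply, smul_eq_mul]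
    refine ⟨by linear_combination c * h1, by linear_combination c * h2, by rw [h3], by rw [h4]; ring⟩

/-- The function `h(g) = G(g(-1)) - G(g 1)`. -/
noncomputable def hE (k : ℕ) (G : ℤ → ℤ → ℂ) : ZMod (3 ^ (k - 1)) → ZMod (3 ^ (k - 1)) → ℂ :=
  fun x y => edge3 1 (-1) 1 1 1 G x y

/-- The function `κ(g) = G(g 2) - G(g 1)` at the point `((x - 1)/2, 2y/(1 - 9y))`. -/
noncomputable def lE (k : ℕ) (G : ℤ → ℤ → ℂ) : ZMod (3 ^ (k - 1)) → ZMod (3 ^ (k - 1)) → ℂ :=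
  fun x y => edge3 1 2 1 1 1 G ((x - 1) * (2 : ZMod (3 ^ (k - 1)))⁻¹) (2 * y * (1 - 9 * y)⁻¹)

/-- E1 (from EDG, FAR). Even exponent, `k ≥ 2`, `q = 3^(k-1)`: `hE` and `lE` lie in `antiE3 k`, and if both vanish then `G` is constant.
Proof. Right multiplication: if `g = (a 3b; 3c d)` has coordinates `(x, y)` and `m = (α 3β; 3γ δ)` then `g m` has coordinates
`((β + x δ)/(α + 9xγ), (γ + y α)/(δ + 9yβ))`; write `p m`. Put `A = (1 3; 0 1)`, `B = (1 0; 3 1)`, `C⁻¹ = (-2 3; -3 4)`,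
`κ(p) = G(g2) - G(g1)`. (i) `(1 3^(k-1); 0 1) g` has coordinates `(x + 3^(k-2), y)`, `(1 0; 3^(k-1) 1) g` has `(x, y + 3^(k-2))`: the sums over
three translates vanish for `h` and `κ`, and also for `lE` (`x ↦ (x-1)/2` maps translates by `q/3` to translates by `2q/3` or so, and
`2(y + j q/3)/(1 - 9(y + jq/3)) = 2y/(1-9y) + 2 j q/3` modulo `q`). (ii) `S g S⁻¹`, `S = (0 -1; 1 0)`, has coordinates `(-y, -x)` and
`G∘S ≈ -G`: `h(-y,-x) = h(x,y)`, and `κ(-y,-x) = -G(g(-1/2)) + G(g(-1))`; as `-1/2 = B⁻¹C⁻¹ 2`, `-1 = B⁻¹C⁻¹ 1` up to the order, precisely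
`B⁻¹C⁻¹ = (-2 3; 3 -5)` maps `1` to `-1/2` and `2` to `-1`: `κ(-y,-x) = κ(p B⁻¹C⁻¹)`. (iii) `* g *` has coordinates `(-x, -y)`, `G∘* ≈ G`:
`h(-x,-y) = -h(x,y)`, and `κ(-x,-y) = G(g(-2)) - G(g(-1)) = -κ(p A⁻¹)` (`A⁻¹` maps `1` to `-2`, `2` to `-1`). (iv) `lE(x,y) = κ(φ(x,y))`,
`φ(x,y) = ((x-1)/2, 2y/(1-9y))`. From (iii): `φ(-x,-y) = ((-x-1)/2, -2y/(1+9y))` is `-(φ(x,y) A)` and so `lE(-x,-y) = κ(-(φ(x,y)A)) = -κ(φ(x,y) A A⁻¹)
= -lE(x,y)`. From (ii): with `(x', y') = φ(x,y)`, `φ(-y,-x) = ((-y-1)/2, -2x/(1+9x))` is `(-Y,-X)` for `(X,Y) = (2x/(1+9x), (y+1)/2)`, so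
`lE(-y,-x) = κ((X,Y) B⁻¹C⁻¹)`, and `(X,Y) B⁻¹C⁻¹ = ((1 - 5X)/(-2 + 9X), (1 - 2Y)/(-5 + 9Y)) = ((x-1)/2, 2y/(1-9y))`: direct computation in `ZMod q` with
units. (v) Injectivity. Suppose `h = κ = 0` (`φ` is a bijection). Let `Φ(g) = G(g∞) - G(g(-1))`, `Φ1(g) = G(g∞) - G(g1)`, so `Φ1 = Φ` (`h = 0`) and
`Φ(gA) = G(g∞) - G(g2) = Φ1(g)` (`κ = 0`); so `Φ(gA^m) = Φ(g)`; `g A^(q/3)` has coordinates `(x + q/3, y)`, `3Φ = 0`, `Φ = Φ1 = 0`. Let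
`ψ(g) = G(g0) - G(g(-1))`; `B(-1) = 1/2`, and `{1, 1/2} = C⁻¹{1, 2}`, so `G(g(1/2)) = G(g1) = G(g(-1))`, `ψ(gB) = G(g0) - G(g(1/2)) = ψ(g)`, and in the same way
`ψ = 0`. So `G` takes the same value at `g0, g∞, g1, g(-1), g2` for all `g = (a 3b; 3c d)`; every matrix of `SL₂(ℤ)` is (modulo 3 there are twelve
classes up to sign) `± g ρ` with `ρ{0,∞}` one of `{0,∞}`, `{1,∞}`, `{-1,∞}`, `{0,1}`, `{0,-1}`, `{1,2}` up to orientation: apply FAR. -/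
def S3E1 : Prop := ∀ (k : ℕ) (G : ℤ → ℤ → ℂ), 2 ≤ k → BalE3 k G →
  hE k G ∈ antiE3 k ∧ lE k G ∈ antiE3 k ∧
  ((∀ x y, hE k G x y = 0) → (∀ x y, lE k G x y = 0) → EqC G 0)

/-- TRQ. Dimension by fixed points: if `P F (i) = ∑_h c h * F (a h i)` maps all functions into `V` and is the identity on `V`, then
`dim V` is its trace. (`P` is a projection onto `V`: `LinearMap.IsProj.trace` or similar; the trace of `F ↦ F ∘ a` is the
number of fixed points of `a`. Model: `Pool.Agent.Helper78.CV` module Trc.) -/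
def S3Trq : Prop := ∀ (ι : Type) (_ : Fintype ι) (_ : DecidableEq ι) (H : Type) (_ : Fintype H)
  (a : H → ι → ι) (c : H → ℂ) (V : Submodule ℂ (ι → ℂ)),
  (∀ F : ι → ℂ, (fun i => ∑ h : H, c h * F (a h i)) ∈ V) →
  (∀ F ∈ V, ∀ i, ∑ h : H, c h * F (a h i) = F i) →
  (Module.finrank ℂ V : ℂ) = ∑ h : H, c h * (Finset.univ.filter fun i : ι => a h i = i).card

/-- DIME (from TRQ). `dim (antiE3 k) = 9^(k-2)`, `k ≥ 2`. With `q = 3^(k-1)`, `t = 3^(k-2)`: `H = Fin 4 × Fin 3 × Fin 3` (or any finite type), `a (e, i, j) (x, y) = g_e (x + i t, y + j t)`,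
`g_0 = id` (sign `+`), `g_1 (x,y) = (-y,-x)` (`+`), `g_2 (x,y) = (-x,-y)` (`-`), `g_3 (x,y) = (y,x)` (`-`),
`c = (1/4) sign w_i w_j`, `w_0 = 2/3`, `w_1 = w_2 = -1/3` (so `∑ w_i F(x + i t)` is the projection onto functions with sum zero over
translates; it commutes with `g_e`). Fixed points: `g_0`: `q²` for `(0,0)`, otherwise none; `g_2`: one for every `(i,j)`: total weight `(∑ w)² = 0`;
`g_1`: `q` if `i = j`, otherwise none, `g_3`: `q` if `i + j = 0`, otherwise none: both give `(2/3) q`, with opposite signs. Total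
`(1/4)(4/9) q² = q²/9`. (If you prefer another proof, for instance a basis, do it.) -/
def S3DimE : Prop := ∀ k : ℕ, 2 ≤ k → Module.finrank ℂ (antiE3 k) = 9 ^ (k - 2)

/-- `r(x) = -(1+2x)/(1+3x)`. -/
def rr {M : ℕ} (x : ZMod M) : ZMod M := -(1 + 2 * x) * (1 + 3 * x)⁻¹

/-- `s(x) = -(1+x)/(2+3x)`, the inverse of `rr`. -/
def ss {M : ℕ} (x : ZMod M) : ZMod M := -(1 + x) * (2 + 3 * x)⁻¹

/-- `v(x) = (1+2x)/(2+3x)`. -/
def v3 {M : ℕ} (x : ZMod M) : ZMod M := (1 + 2 * x) * (2 + 3 * x)⁻¹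

/-- The hexagon relation:
`R f (x,y) = f(x,y) + f(r x, s y) + f(s x, r y) - f(x+1, y/(1+3y)) - f(x/(1+3x), y+1) - f(v x, v y)`. -/
def Rh (k : ℕ) : (ZMod (3 ^ k) → ZMod (3 ^ k) → ℂ) →ₗ[ℂ] (ZMod (3 ^ k) → ZMod (3 ^ k) → ℂ) where
  toFun f x y := f x y + f (rr x) (ss y) + f (ss x) (rr y) - f (x + 1) (y * (1 + 3 * y)⁻¹)
    - f (x * (1 + 3 * x)⁻¹) (y + 1) - f (v3 x) (v3 y)
  map_add' f g := by funext x y; simp only [Pi.add_apply]; ring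
  map_smul' c f := by funext x y; simp only [Pi.smul_apply, smul_eq_mul, RingHom.id_apply]; ring

/-- Functions on `(ZMod (3^k))²` with vanishing sums over translates by `3^(k-1)` in both variables, symmetric and even. -/
def antiO3 (k : ℕ) : Submodule ℂ (ZMod (3 ^ k) → ZMod (3 ^ k) → ℂ) where
  carrier := {F | ∀ x y, F x y + F (x + 3 ^ (k - 1)) y + F (x + 2 * 3 ^ (k - 1)) y = 0 ∧
    F x y + F x (y + 3 ^ (k - 1)) + F x (y + 2 * 3 ^ (k - 1)) = 0 ∧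
    F y x = F x y ∧ F (-x) (-y) = F x y}
  add_mem' := by
    intro F F' h h' x y
    obtain ⟨h1, h2, h3, h4⟩ := h x y
    obtain ⟨g1, g2, g3, g4⟩ := h' x y
    simp only [Pi.add_apply]
    refine ⟨by linear_combination h1 + g1, by linear_combination h2 + g2, by rw [h3, g3], by rw [h4, g4]⟩
  zero_mem' := by intro x y; simp
  smul_mem' := by
    intro c F h x y
    obtain ⟨h1, h2, h3, h4⟩ := h x y
    simp only [Pi.smul_apply, smul_eq_mul]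
    refine ⟨by linear_combination c * h1, by linear_combination c * h2, by rw [h3], by rw [h4]⟩

/-- The target of the hexagon relation. -/
def antiF3 (k : ℕ) : Submodule ℂ (ZMod (3 ^ k) → ZMod (3 ^ k) → ℂ) where
  carrier := {F | ∀ x y, F x y + F (x + 3 ^ (k - 1)) y + F (x + 2 * 3 ^ (k - 1)) y = 0 ∧
    F x y + F x (y + 3 ^ (k - 1)) + F x (y + 2 * 3 ^ (k - 1)) = 0 ∧
    F y x = F x y ∧ F (rr x) (ss y) = F x y ∧ F (-x - 1) (-y * (1 + 3 * y)⁻¹) = -F x y}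
  add_mem' := by
    intro F F' h h' x y
    obtain ⟨h1, h2, h3, h4, h5⟩ := h x y
    obtain ⟨g1, g2, g3, g4, g5⟩ := h' x y
    simp only [Pi.add_apply]
    refine ⟨by linear_combination h1 + g1, by linear_combination h2 + g2, by rw [h3, g3], by rw [h4, g4],
      by rw [h5, g5]; ring⟩
  zero_mem' := by intro x y; simp
  smul_mem' := by
    intro c F h x y
    obtain ⟨h1, h2, h3, h4, h5⟩ := h x y
    simp only [Pi.smul_apply, smul_eq_mul]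
    refine ⟨by linear_combination c * h1, by linear_combination c * h2, by rw [h3], by rw [h4], by rw [h5]; ring⟩

/-- O1 (from EDG, FAR). Odd exponent, `k ≥ 1`: `f = edge3 0 1 0 0 1 G` (path from `g(0)` to `g(∞)`, `g = (a b; 3c d)` in
`Γ₀(3)`) lies in `antiO3 k`, satisfies `R f = 0`, and if it vanishes then `G` is constant.
Proof. `(1 3^(k-1); 0 1) g` has coordinates `(x + 3^(k-1), y)`, `(1 0; 3^k 1) g` has
`(x, y + 3^(k-1))`; `W g W⁻¹ = (d -c; -3b a)`, `W = (0 -1; 3 0)`, has `(-y,-x)` and `f(W g W⁻¹) = f(g)` (`G∘W ≈ -G`), `* g *` has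
`(-x,-y)` (`f` equal); so `f(y,x) = f(x,y)`. Relation: `T = (1 1; 0 1)`, `ρ = (-1 1; -3 2)` (maps `0 → 1/2 → 1 → 0`, `ρ³ = -1`): with
`k(g) = G(g1) - G(g0) = f(g) - f(gT)` (`gT∞ = g∞`, `gT0 = g1`), `k(g) + k(gρ) + k(gρ²) = (G(g1) - G(g0)) + (G(g0) - G(g½)) + (G(g½) - G(g1)) = 0`;
coordinates of `g m`, `m = (α β; 3γ δ)`: `((β + xδ)/(α + 3xγ), (γ + yα)/(δ + 3yβ))`: `gρ`: `(r x, s y)`, `gρ² = -g (2 -1; 3 -1)`: `(s x, r y)`, `gT`: `(x+1, y/(1+3y))`,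
`gρT = -g (1 0; 3 1)`: `(x/(1+3x), y+1)`, `gρ²T = - g (2 1; 3 2)`: `(v x, v y)`. If `f = 0` then `G(g∞) = G(g0) = G(g1) = G(g(-1))` for `g` in `Γ₀(3)` (`k = 0`, `-1 = T⁻¹ 0`), and
every matrix of `SL₂(ℤ)` is `g`, `g S`, `g (1 0; 1 1)` or `g (1 0; -1 1)` with `g` in `Γ₀(3)` (bottom row modulo `3`): its edge is `g{0,∞}`, `g{0,1}` or
`g{0,-1}` up to orientation: apply FAR. -/
def S3O1 : Prop := ∀ (k : ℕ) (G : ℤ → ℤ → ℂ), 1 ≤ k → BalO3 k G →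
  (fun (x : ZMod (3 ^ k)) (y : ZMod (3 ^ k)) => edge3 0 1 0 0 1 G x y) ∈ antiO3 k ∧
  Rh k (fun (x : ZMod (3 ^ k)) (y : ZMod (3 ^ k)) => edge3 0 1 0 0 1 G x y) = 0 ∧
  ((∀ (x : ZMod (3 ^ k)) (y : ZMod (3 ^ k)), edge3 0 1 0 0 1 G x y = 0) → EqC G 0)

/-- RMAP. `R` maps `antiO3 k` onto `antiF3 k` (`k ≥ 1`). Proof. `r`, `s` are inverse to each other, `r³ = 1`. Write `(T f)(x,y) = f(x+1, y/(1+3y))`,
`(ρ f)(x,y) = f(r x, s y)`; `ρ³ = 1`, `ρ T f (x,y) = (T f)(r x, s y) = f(x/(1+3x), y+1)`, `ρ² T f (x, y) = f(v x, v y)`, so `R f = (1 + ρ + ρ²)(1 - T) f`. With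
`κ f (x,y) = f(y,x)`, `σ f (x,y) = f(-x-1, -y/(1+3y))`, `ν f (x,y) = f(-x,-y)`, for every `f`:
`R κ f = κ R f` and `R ν f = -σ R f` (direct computation), so `R` maps `antiO3` into `antiF3` (the sums over translates: `T`, `ρ` map translates by
`3^(k-1)` to translates by `3^(k-1)`, e.g. `r(x + 3^(k-1)) = r x + 3^(k-1)`). Conversely let `F` be in `antiF3`. On functions with vanishing sums over
translates in `x`, `T^h = τ`, `h = 3^(k-1)`, `τ` the translation of `x` by `h` (`y` is changed by `h·3 = 0`), `1 + τ + τ² = 0`, so `(1 - T) ∑_{i<h} T^i = 1 - τ` and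
`(1 - τ)(1 - τ²) = 3`: `f0 = (1/9)(1 - τ²) ∑_{i<h} T^i F` satisfies `(1 - T) f0 = F/3` and `R f0 = (F + ρF + ρ²F)/3 = F`; the
average `(f0 + ν f0 + κ f0 + κ ν f0)/4` lies in `antiO3 k` and is mapped to `F`. -/
def S3Rmap : Prop := ∀ k : ℕ, 1 ≤ k → (antiO3 k).map (Rh k) = antiF3 k

/-- DIMO (from TRQ). `dim (antiO3 k) = a(a+1)`, `a = 3^(k-1)`, `k ≥ 1`: with `Q = 3^k = 3a` the fixed point count
as in DIME, now all four signs `+`, is `(4Q²/9 + 2Q/3 + 0 + 2Q/3)/4 = a² + a`. -/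
def S3DimO : Prop := ∀ k : ℕ, 1 ≤ k →
  Module.finrank ℂ (antiO3 k) = 3 ^ (k - 1) * (3 ^ (k - 1) + 1)

/-- DIMF (from TRQ). `3 dim (antiF3 k) = a(a+1)`, `a = 3^(k-1)`, `k ≥ 2`. The six Möbius maps `1, r, s` (sign `+`), `n1 x = -1 - x`, `n2 x = -x/(1+3x)`, `n3 x = -v(x)` (sign `-`)
form a group (`≅ S₃`) with the automorphism `α ↦ α*`: `r* = s`, `s* = r`, `n1* = n2`, `n2* = n1`, `n3* = n3`. `antiF3` is the space of `F` with vanishing sums over translates,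
`F(y,x) = F(x,y)` and `F(α x, α* y) = sign(α) F(x,y)` for all six `α` (the maps `(α, α*)` for `r` and `n1` are in the definition and generate). TRQ with
`H` = (swap or not) × (six `α`) × `Fin 3` × `Fin 3`, `c = (1/12) sign(α) w_i w_j` (`w` as in DIME), `a (0,α,i,j) (x,y) = (α(x + i h), α*(y + j h))`, `a (1,α,i,j)(x,y) = (α(y + j h), α*(x + i h))`,
`h = 3^(k-1)` (or the translations outside). Fixed points (`Q = 3^k`, `9 ∣ Q`, `9 ∣ 3 h`): not swapped, `α = 1`: `Q²` for `i = j = 0`, else none; `α = r, s`: none (modulo `3`: `r(x) ≡ x - 1`,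
`s(x) ≡ x + 1`, and `3 ∣ h`); `α = n_i`: exactly one for every `(i,j)` (Hensel, or: an affine equation after multiplication), total weight `(∑ w)² = 0`; swapped: the equations are `x = α(y + jh)`,
`y = α*(x + ih)`; `α = 1, r, s`: `α* α = 1` and there are `Q` solutions if `i + j = 0` in `ZMod 3`, else none; `α = n3`: `Q` if `i = j`, else none; `α = n1, n2`: none (`α* α` is `r` or `s` modulo
translations). Total `(1/12)(4Q²/9 + 3·(2/3)Q - (2/3)Q) = (Q² + 3Q)/27`. -/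
def S3DimF : Prop := ∀ k : ℕ, 2 ≤ k →
  3 * Module.finrank ℂ (antiF3 k) = 3 ^ (k - 1) * (3 ^ (k - 1) + 1)

/-- KERO (rank-nullity with RMAP, DIMO, DIMF; for `k = 1` see below). `3 dim {f ∈ antiO3 k | R f = 0} = 2a(a+1)`, `a = 3^(k-1)`, for `k ≥ 2`; for `k = 1` the dimension is at
most one: `antiO3 1` has dimension 2 (DIMO), and `R` is not zero on it, e.g. because `antiF3 1 ∋ F(x,y) = g(x+y)`, `g = (1, 0, -1)` (RMAP). -/
def S3KerO : Prop := (∀ k : ℕ, 2 ≤ k →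
  3 * Module.finrank ℂ ↥(antiO3 k ⊓ LinearMap.ker (Rh k)) = 2 * (3 ^ (k - 1) * (3 ^ (k - 1) + 1))) ∧
  Module.finrank ℂ ↥(antiO3 1 ⊓ LinearMap.ker (Rh 1)) ≤ 1

/-- UB from BAL, E1, O1, DIME, KERO. For `n = 2k ≥ 4` compose `G ↦` (balanced form) `↦ (hE, lE)`, a linear map into `antiE3 k × antiE3 k`, of dimension
`2·9^(k-2) = dd3 n`; for `n = 2k+1 ≥ 3` the map to `f`, into a space of dimension at most `dd3 n`; then an injection into `Fin (dd3 n) → ℂ`. -/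
def S3UBof : Prop := S3Bal → S3E1 → S3O1 → S3DimE → S3KerO → S3UB

end Pool.Agent.Helper78.W3
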